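import Mathlib

/-! Flipping a prefix makes the number of odd leaves balanced. -/

namespace Pool.Agent.H76.LY

open Finset

/-- the number of odd leaves after flipping the prefix of length `J` -/
def Pat_f {d : ℕ} (a : Fin d → ZMod 2) (J : ℕ) : ℕ :=
  (univ.filter (fun l : Fin d => a l + (if l.val < J then 1 else 0) = 1)).card

theorem Pat_single {d : ℕ} (J : ℕ) : (univ.filter (fun l : Fin d => l.val = J)).card ≤ 1 := by
  rw [Finset.card_le_one]
  intro x hx y hy
  rw [Finset.mem_filter] at hx hy
  exact Fin.ext (hx.2.trans hy.2.symm)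

theorem Pat_up {d : ℕ} (a : Fin d → ZMod 2) (J : ℕ) : Pat_f a (J + 1) ≤ Pat_f a J + 1 := by
  have hsub : (univ.filter (fun l : Fin d => a l + (if l.val < J + 1 then 1 else 0) = 1)) ⊆
      (univ.filter (fun l : Fin d => a l + (if l.val < J then 1 else 0) = 1)) ∪
        (univ.filter (fun l : Fin d => l.val = J)) := by
    intro l hl
    rw [Finset.mem_union, Finset.mem_filter, Finset.mem_filter]
    rw [Finset.mem_filter] at hl
    by_cases h : l.val = J
    · exact Or.inr ⟨Finset.mem_univ _, h⟩
    · refine Or.inl ⟨Finset.mem_univ _, ?_⟩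
      have h2 := hl.2
      by_cases h3 : l.val < J
      · rw [if_pos h3]
        rw [if_pos (by omega)] at h2
        exact h2
      · rw [if_neg h3]
        rw [if_neg (by omega)] at h2
        exact h2
  calc Pat_f a (J + 1) ≤ _ := Finset.card_le_card hsub
    _ ≤ _ := Finset.card_union_le _ _
    _ ≤ Pat_f a J + 1 := Nat.add_le_add_left (Pat_single J) _

theorem Pat_down {d : ℕ} (a : Fin d → ZMod 2) (J : ℕ) : Pat_f a J ≤ Pat_f a (J + 1) + 1 := by
  have hsub : (univ.filter (fun l : Fin d => a l + (if l.val < J then 1 else 0) = 1)) ⊆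
      (univ.filter (fun l : Fin d => a l + (if l.val < J + 1 then 1 else 0) = 1)) ∪
        (univ.filter (fun l : Fin d => l.val = J)) := by
    intro l hl
    rw [Finset.mem_union, Finset.mem_filter, Finset.mem_filter]
    rw [Finset.mem_filter] at hl
    by_cases h : l.val = J
    · exact Or.inr ⟨Finset.mem_univ _, h⟩
    · refine Or.inl ⟨Finset.mem_univ _, ?_⟩
      have h2 := hl.2
      by_cases h3 : l.val < J
      · rw [if_pos (by omega)]
        rw [if_pos h3] at h2
        exact h2
      · rw [if_neg (by omega)]
        rw [if_neg h3] at h2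
        exact h2
  calc Pat_f a J ≤ _ := Finset.card_le_card hsub
    _ ≤ _ := Finset.card_union_le _ _
    _ ≤ Pat_f a (J + 1) + 1 := Nat.add_le_add_left (Pat_single J) _

theorem Pat_zmod (x : ZMod 2) : x + 1 = 1 ↔ ¬ (x + 0 = 1) := by
  revert x
  decide

theorem Pat_end {d : ℕ} (a : Fin d → ZMod 2) : Pat_f a 0 + Pat_f a d = d := by
  have h1 : (univ.filter (fun l : Fin d => a l + (if l.val < d then 1 else 0) = 1)) =
      (univ.filter (fun l : Fin d => ¬ (a l + (if l.val < 0 then 1 else 0) = 1))) := by
    apply Finset.filter_congr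
    intro l _
    rw [if_pos l.2, if_neg (Nat.not_lt_zero _)]
    exact Pat_zmod _
  unfold Pat_f
  rw [h1, Finset.card_filter_add_card_filter_not, Finset.card_univ, Fintype.card_fin]

theorem pattern {d : ℕ} (hd : 1 ≤ d) (a : Fin d → ZMod 2) :
    ∃ J < d, d / 2 ≤ (univ.filter (fun l : Fin d => a l + (if l.val < J then 1 else 0) = 1)).card ∧
      (univ.filter (fun l : Fin d => a l + (if l.val < J then 1 else 0) = 1)).card + d / 2 ≤ d := by
  by_contra hcon
  have hno : ∀ J < d, ¬ (d / 2 ≤ Pat_f a J ∧ Pat_f a J + d / 2 ≤ d) := by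
    intro J hJ hh
    exact hcon ⟨J, hJ, hh.1, hh.2⟩
  have hend := Pat_end a
  have h0 := hno 0 (by omega)
  by_cases hlow : Pat_f a 0 < d / 2
  · have hall : ∀ J < d, Pat_f a J < d / 2 := by
      intro J
      induction J with
      | zero => intro _; exact hlow
      | succ J ih =>
        intro hJ
        have h1 := ih (by omega)
        have h2 := Pat_up a J
        have h3 := hno (J + 1) hJ
        by_contra h4
        apply h3
        omega
    have h1 := hall (d - 1) (by omega)
    have h2 := Pat_up a (d - 1)
    rw [Nat.sub_add_cancel hd] at h2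
    omega
  · have hhigh : d < Pat_f a 0 + d / 2 := by
      by_contra h
      apply h0
      omega
    have hall : ∀ J < d, d < Pat_f a J + d / 2 := by
      intro J
      induction J with
      | zero => intro _; exact hhigh
      | succ J ih =>
        intro hJ
        have h1 := ih (by omega)
        have h2 := Pat_down a J
        have h3 := hno (J + 1) hJ
        by_contra h4
        apply h3
        omega
    have h1 := hall (d - 1) (by omega)
    have h2 := Pat_down a (d - 1)
    rw [Nat.sub_add_cancel hd] at h2
    omega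

end Pool.Agent.H76.LY
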