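import Pool.Agent.H76.LY.Geo
import Pool.Agent.H76.LY.Pat

/-! Matching the pattern: dependence on few coordinates, probability. -/

namespace Pool.Agent.H76.LY

open Finset Pool.Agent.H46.SR Pool.Agent.H46.TS Pool.Agent.H76.LX

namespace Par

variable (P : Par)

theorem card_Cf {ψ : Fin (P.z ^ P.D) → Fin P.N} {i : ℕ} (F : P.Prof ψ i) (β : ℕ) (r : P.Rr) :
    (Cf F β r).card ≤ P.d * P.d := by
  unfold Cf
  refine card_image_le.trans ?_
  rw [card_univ, Fintype.card_prod, Fintype.card_fin, Fintype.card_fin]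
  exact Nat.mul_le_mul_right _ (Nat.sub_le _ _)

theorem MatchP_fl_congr {w w' : P.Sp} {k : Fin P.La} {x y : Fin P.N}
    (h : w (k, dv (P.T (P.lv k.val)) x, dv (P.U k.val) y) =
      w' (k, dv (P.T (P.lv k.val)) x, dv (P.U k.val) y)) : P.fl w k x y = P.fl w' k x y := by
  unfold fl
  rw [h]

theorem mat_dep {ψ : Fin (P.z ^ P.D) → Fin P.N} {i : ℕ} (F : P.Prof ψ i) (r : P.Rr)
    (β : ℕ) (ω w w' : P.Sp) (h : ∀ c ∈ Cf F β r, w c = w' c) :
    P.Mat (mix (D3 F β) ω w) ψ i β r ↔ P.Mat (mix (D3 F β) ω w') ψ i β r := by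
  have h1 : ∀ l : Fin P.d, P.hi (mix (D3 F β) ω w) i (P.x0 i β) (ψ (P.lf r l)) =
      P.hi (mix (D3 F β) ω w') i (P.x0 i β) (ψ (P.lf r l)) := by
    intro l
    unfold hi
    apply Finset.sum_congr rfl
    intro k _
    apply P.MatchP_fl_congr
    by_cases hc : ((k, dv (P.T (P.lv k.val)) (P.x0 i β), dv (P.U k.val) (ψ (P.lf r l))) : P.Co) ∈
        D3 F β
    · rw [mix_mem hc, mix_mem hc]
      apply h
      obtain ⟨⟨j, hj⟩, -⟩ := hc
      have hj' : k.val = F.ks j.val := hj
      unfold Cf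
      rw [mem_image]
      refine ⟨(j, l), mem_univ _, ?_⟩
      show cf F β j (P.lf r l) = _
      unfold cf
      rw [hj']
      congr 1
      exact Fin.ext hj'.symm
    · rw [mix_not_mem hc, mix_not_mem hc]
  unfold Mat
  simp only [h1]

theorem MatchP_ks_inj {ψ : Fin (P.z ^ P.D) → Fin P.N} {i : ℕ} (F : P.Prof ψ i) {j j' : ℕ}
    (hj : j + 1 < P.d) (hj' : j' + 1 < P.d) (h : F.ks j = F.ks j') : j = j' := by
  have key : ∀ a b : ℕ, a + 1 < P.d → b + 1 < P.d → a < b → F.ks a < F.ks b := by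
    intro a b ha hb hab
    have h1 := (F.hks a ha).2.1
    have h2 := (F.hks b hb).1
    have h3 : F.k (a + 1) ≤ F.k b := by
      rcases Nat.lt_or_ge (a + 1) b with h4 | h4
      · exact (k_lt F h4 (by omega)).le
      · have : a + 1 = b := by omega
        rw [this]
    omega
  rcases Nat.lt_trichotomy j j' with h1 | h1 | h1
  · have := key _ _ hj hj' h1
    omega
  · exact h1
  · have := key _ _ hj' hj h1
    omega

theorem MatchP_cf_inj {ψ : Fin (P.z ^ P.D) → Fin P.N} {i : ℕ} (F : P.Prof ψ i) (β : ℕ)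
    {j j' : Fin (P.d - 1)} {b b' : Fin (P.z ^ P.D)} (h : cf F β j b = cf F β j' b') : j = j' := by
  have h1 : F.ks j.val = F.ks j'.val := congrArg (fun c : P.Co => c.1.val) h
  apply Fin.ext
  have h2 := j.2
  have h3 := j'.2
  exact P.MatchP_ks_inj F (by omega) (by omega) h1

/-- for given coordinates outside the cells of the base column some pattern of the `d - 1`
coordinates `cf F β j b0` makes the row balanced -/
theorem exists_pat {ψ : Fin (P.z ^ P.D) → Fin P.N} {i : ℕ} (F : P.Prof ψ i) {r : P.Rr}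
    (hr : Gd F r) (β : ℕ) (w : P.Sp) :
    ∃ J < P.d, ∀ w' : P.Sp, (∀ c, (∀ j, c ≠ cf F β j r.2.1) → w' c = w c) →
      (∀ j : Fin (P.d - 1), (w' (cf F β j r.2.1)).val = 0 ↔ j.val + 1 = J) →
      P.Mat w' ψ i β r := by
  classical
  obtain ⟨w0, hw0⟩ : ∃ w0 : P.Sp, ∀ c, w0 c = if ∃ j, c = cf F β j r.2.1 then
      (⟨1, by have := P.Q_ge; omega⟩ : Fin P.Q) else w c := ⟨fun c => _, fun _ => rfl⟩
  have hd := P.hd
  obtain ⟨J, hJ, hp1, hp2⟩ := pattern (by omega : 1 ≤ P.d)
    (fun l : Fin P.d => P.hi w0 i (P.x0 i β) (ψ (P.lf r l)))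
  refine ⟨J, hJ, ?_⟩
  intro w' hw' hpat
  have key : ∀ l : Fin P.d, P.hi w' i (P.x0 i β) (ψ (P.lf r l)) =
      P.hi w0 i (P.x0 i β) (ψ (P.lf r l)) + (if l.val < J then 1 else 0) := by
    intro l
    have hterm : ∀ k : Fin P.La, P.fl w' k (P.x0 i β) (ψ (P.lf r l)) =
        P.fl w0 k (P.x0 i β) (ψ (P.lf r l)) +
          (if ∃ j : Fin (P.d - 1), k.val = F.ks j.val ∧ l.val ≤ j.val ∧ j.val + 1 = J
            then (1 : ZMod 2) else 0) := by
      intro k
      by_cases hc : ∃ j, ((k, dv (P.T (P.lv k.val)) (P.x0 i β), dv (P.U k.val) (ψ (P.lf r l))) :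
          P.Co) = cf F β j r.2.1
      · obtain ⟨j, hj⟩ := hc
        have hjlt := j.2
        have hk : k.val = F.ks j.val := congrArg (fun c : P.Co => c.1.val) hj
        have hU : (ψ (P.lf r l)).val / P.U (F.ks j.val) = (ψ r.2.1).val / P.U (F.ks j.val) := by
          have h2 : dv (P.U k.val) (ψ (P.lf r l)) = dv (P.U (F.ks j.val)) (ψ r.2.1) :=
            congrArg (fun c : P.Co => c.2.2) hj
          rw [hk] at h2
          exact congrArg Fin.val h2
        have hlj : l.val ≤ j.val := (geo_ks hr (by omega) l).mp hU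
        have e1 : P.fl w' k (P.x0 i β) (ψ (P.lf r l)) = if j.val + 1 = J then 1 else 0 := by
          unfold fl
          rw [hj]
          by_cases h5 : j.val + 1 = J
          · rw [if_pos ((hpat j).mpr h5), if_pos h5]
          · rw [if_neg (fun h6 => h5 ((hpat j).mp h6)), if_neg h5]
        have e2 : P.fl w0 k (P.x0 i β) (ψ (P.lf r l)) = 0 := by
          have e3 : (w0 (cf F β j r.2.1)).val = 1 := by
            rw [hw0, if_pos ⟨j, rfl⟩]
          unfold fl
          rw [hj, if_neg]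
          omega
        rw [e1, e2, zero_add]
        by_cases h5 : j.val + 1 = J
        · rw [if_pos h5, if_pos ⟨j, hk, hlj, h5⟩]
        · rw [if_neg h5, if_neg]
          rintro ⟨j', hk', -, h6⟩
          have hj'lt := j'.2
          have := P.MatchP_ks_inj F (j := j.val) (j' := j'.val) (by omega) (by omega)
            (hk.symm.trans hk')
          omega
      · have e1 : P.fl w' k (P.x0 i β) (ψ (P.lf r l)) = P.fl w0 k (P.x0 i β) (ψ (P.lf r l)) := by
          apply P.MatchP_fl_congr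
          rw [hw0, if_neg hc]
          apply hw'
          intro j hj
          exact hc ⟨j, hj⟩
        rw [e1, if_neg, add_zero]
        rintro ⟨j, hk, hlj, -⟩
        apply hc
        have hjlt := j.2
        refine ⟨j, ?_⟩
        have h7 := (geo_ks hr (j := j.val) (by omega) l).mpr hlj
        unfold cf
        rw [hk]
        refine Prod.ext (Fin.ext hk) (Prod.ext rfl (Fin.ext h7))
    unfold hi
    rw [Finset.sum_congr rfl (fun k _ => hterm k), Finset.sum_add_distrib]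
    congr 1
    by_cases hl : l.val < J
    · rw [if_pos hl]
      have hJ1 : J - 1 + 1 < P.d := by omega
      have hks := F.hks (J - 1) hJ1
      have hlt : F.ks (J - 1) < P.La := lt_of_le_of_lt hks.2.1 (F.hk _ hJ1)
      rw [Finset.sum_eq_single (⟨F.ks (J - 1), hlt⟩ : Fin P.La)]
      · rw [if_pos]
        exact ⟨⟨J - 1, by omega⟩, rfl, by show l.val ≤ J - 1; omega, by
          show J - 1 + 1 = J; omega⟩
      · intro k _ hk
        rw [if_neg]
        rintro ⟨j, h1, -, h2⟩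
        apply hk
        apply Fin.ext
        show k.val = F.ks (J - 1)
        rw [h1]
        congr 1
        omega
      · intro hk
        exfalso
        apply hk
        rw [mem_filter]
        exact ⟨mem_univ _, hks.2.2.ge⟩
    · rw [if_neg hl]
      apply Finset.sum_eq_zero
      intro k _
      rw [if_neg]
      rintro ⟨j, -, h1, h2⟩
      omega
  unfold Mat h
  simp only [key]
  exact ⟨hp1, hp2⟩

theorem MatchP_av_one (J : ℕ) (j : ℕ) :
    (if j + 1 = J then 1 / (P.Q : ℝ) else 1 / 2) ≤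
      av (fun b : Fin P.Q => ind (b.val = 0 ↔ j + 1 = J)) := by
  by_cases h : j + 1 = J
  · rw [if_pos h]
    have h1 : ∀ b : Fin P.Q, ind (b.val = 0 ↔ j + 1 = J) = ind (b.val = 0) := by
      intro b
      congr 1
      simp [h]
    rw [av_congr h1, av_ind_eq P.Q_pos]
  · rw [if_neg h]
    have h1 : ∀ b : Fin P.Q, ind (b.val = 0 ↔ j + 1 = J) = 1 + (-1) * ind (b.val = 0) := by
      intro b
      have : (b.val = 0 ↔ j + 1 = J) = ¬ (b.val = 0) := by simp [h]
      rw [this, ind_not]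
      ring
    have h2 : av (fun b : Fin P.Q => ind (b.val = 0 ↔ j + 1 = J)) = 1 + (-1) * (1 / (P.Q : ℝ)) := by
      rw [av_congr h1, av_add, av_mul_left, av_ind_eq P.Q_pos, av_const]
    rw [h2]
    have h3 : (2 : ℝ) ≤ (P.Q : ℝ) := by exact_mod_cast P.Q_ge
    have h4 : 1 / (P.Q : ℝ) ≤ 1 / 2 := one_div_le_one_div_of_le (by norm_num) h3
    linarith

theorem MatchP_prod (J : ℕ) (hJ : J < P.d) :
    1 / (2 ^ P.d * (P.Q : ℝ)) ≤
      ∏ j : Fin (P.d - 1), (if j.val + 1 = J then 1 / (P.Q : ℝ) else 1 / 2) := by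
  have hQ : (2 : ℝ) ≤ (P.Q : ℝ) := by exact_mod_cast P.Q_ge
  have hQ0 : (0 : ℝ) < (P.Q : ℝ) := by linarith
  have hQ1 : 1 / (P.Q : ℝ) ≤ 1 := by
    rw [div_le_one hQ0]
    linarith
  have h1 : ∏ j : Fin (P.d - 1), ((1 / 2 : ℝ) * (if j.val + 1 = J then 1 / (P.Q : ℝ) else 1)) ≤
      ∏ j : Fin (P.d - 1), (if j.val + 1 = J then 1 / (P.Q : ℝ) else 1 / 2) := by
    apply Finset.prod_le_prod
    · intro j _
      split_ifs <;> positivity
    · intro j _
      split_ifs
      · have : (0 : ℝ) ≤ 1 / (P.Q : ℝ) := by positivity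
        linarith
      · norm_num
  refine le_trans ?_ h1
  rw [Finset.prod_mul_distrib, Finset.prod_const, Finset.card_univ, Fintype.card_fin]
  have h2 : 1 / (P.Q : ℝ) ≤ ∏ j : Fin (P.d - 1), (if j.val + 1 = J then 1 / (P.Q : ℝ) else 1) := by
    by_cases hJ0 : J = 0
    · rw [Finset.prod_eq_one]
      · exact hQ1
      · intro j _
        rw [if_neg (by omega)]
    · rw [Finset.prod_eq_single (⟨J - 1, by omega⟩ : Fin (P.d - 1))]
      · rw [if_pos (by show J - 1 + 1 = J; omega)]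
      · intro j _ hj
        rw [if_neg]
        intro h3
        apply hj
        apply Fin.ext
        show j.val = J - 1
        omega
      · intro h3
        exact absurd (mem_univ _) h3
  have h3 : (1 / 2 : ℝ) ^ P.d ≤ (1 / 2 : ℝ) ^ (P.d - 1) :=
    pow_le_pow_of_le_one (by norm_num) (by norm_num) (Nat.sub_le _ _)
  calc 1 / (2 ^ P.d * (P.Q : ℝ)) = (1 / 2 : ℝ) ^ P.d * (1 / (P.Q : ℝ)) := by
        rw [one_div_pow, one_div_mul_one_div]
    _ ≤ (1 / 2 : ℝ) ^ (P.d - 1) *
        ∏ j : Fin (P.d - 1), (if j.val + 1 = J then 1 / (P.Q : ℝ) else 1) := by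
        apply mul_le_mul h3 h2
        · positivity
        · positivity

theorem av_mat {ψ : Fin (P.z ^ P.D) → Fin P.N} {i : ℕ} (F : P.Prof ψ i) {r : P.Rr}
    (hr : Gd F r) (β : ℕ) (ω : P.Sp) :
    1 / (2 ^ P.d * (P.Q : ℝ)) ≤
      av (fun w : P.Sp => ind (P.Mat (mix (D3 F β) ω w) ψ i β r)) := by
  classical
  obtain ⟨σ, hσ⟩ : ∃ σ : Fin (P.d - 1) → P.Co, ∀ j, σ j = cf F β j r.2.1 := ⟨_, fun _ => rfl⟩
  have hinj : Function.Injective σ := by
    intro j j' h
    rw [hσ, hσ] at h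
    exact P.MatchP_cf_inj F β h
  rw [av_mix (Set.range σ)]
  rw [← av_const (Ω := P.Sp) (1 / (2 ^ P.d * (P.Q : ℝ)))]
  apply av_mono
  intro w
  obtain ⟨J, hJ, hpat⟩ := P.exists_pat F hr β (mix (D3 F β) ω w)
  have h1 : ∀ w' : P.Sp, ∏ j, (fun (j : Fin (P.d - 1)) (b : Fin P.Q) =>
      ind (b.val = 0 ↔ j.val + 1 = J)) j (w' (σ j)) ≤
      ind (P.Mat (mix (D3 F β) ω (mix (Set.range σ) w w')) ψ i β r) := by
    intro w'
    have h2 : ∏ j, (fun (j : Fin (P.d - 1)) (b : Fin P.Q) =>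
      ind (b.val = 0 ↔ j.val + 1 = J)) j (w' (σ j)) =
        ind (∀ j : Fin (P.d - 1), (w' (σ j)).val = 0 ↔ j.val + 1 = J) := by
      rw [ind_forall]
    rw [h2]
    apply ind_mono
    intro h3
    apply hpat
    · intro c hc
      have hc' : c ∉ Set.range σ := by
        rintro ⟨j, hj⟩
        exact hc j (by rw [← hj, hσ])
      by_cases hD : c ∈ D3 F β
      · rw [mix_mem hD, mix_mem hD, mix_not_mem hc']
      · rw [mix_not_mem hD, mix_not_mem hD]
    · intro j
      have hD : cf F β j r.2.1 ∈ D3 F β := ⟨⟨j, rfl⟩, rfl⟩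
      have hR : cf F β j r.2.1 ∈ Set.range σ := ⟨j, hσ j⟩
      rw [mix_mem hD, mix_mem hR, ← hσ]
      exact h3 j
  refine le_trans ?_ (av_mono h1)
  rw [av_coords σ hinj (fun (j : Fin (P.d - 1)) (b : Fin P.Q) =>
      ind (b.val = 0 ↔ j.val + 1 = J))]
  refine (P.MatchP_prod J hJ).trans ?_
  apply Finset.prod_le_prod
  · intro j _
    split_ifs <;> positivity
  · intro j _
    exact P.MatchP_av_one J j.val

end Par

end Pool.Agent.H76.LY
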