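import Pool.Agent.H76.LY.Geo

/-! The probability of a repair. -/

namespace Pool.Agent.H76.LY

open Finset Pool.Agent.H46.SR Pool.Agent.H46.TS Pool.Agent.H76.LX

namespace Par

variable (P : Par)

theorem RepP_fl_eq_one {ω : P.Sp} {k : Fin P.La} {x y : Fin P.N} :
    P.fl ω k x y = 1 ↔ (ω (k, dv (P.T (P.lv k.val)) x, dv (P.U k.val) y)).val = 0 := by
  unfold fl
  split_ifs with h
  · simp [h]
  · simp [h]

theorem RepP_av_fl (k : Fin P.La) (x y : Fin P.N) :
    av (fun ω : P.Sp => ind (P.fl ω k x y = 1)) = 1 / (P.Q : ℝ) := by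
  have h1 : ∀ ω : P.Sp, ind (P.fl ω k x y = 1) =
      (fun b : Fin P.Q => ind (b.val = 0)) (ω (k, dv (P.T (P.lv k.val)) x, dv (P.U k.val) y)) := by
    intro ω
    show ind (P.fl ω k x y = 1) = ind _
    congr 1
    exact propext P.RepP_fl_eq_one
  rw [av_congr h1]
  refine (av_coord (ι := P.Co) (B := Fin P.Q) (k, dv (P.T (P.lv k.val)) x, dv (P.U k.val) y)
    (fun b : Fin P.Q => ind (b.val = 0))).trans ?_
  exact av_ind_eq P.Q_pos

theorem RepP_sum_div (n l β : ℕ) (hl : 0 < l) :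
    ∑ x : Fin n, ind (x.val / l = β) ≤ (l : ℝ) := by
  classical
  have h1 : ∀ x : Fin n, ind (x.val / l = β) = if x.val / l = β then (1 : ℝ) else 0 := by
    intro x
    by_cases h : x.val / l = β
    · rw [ind_pos h, if_pos h]
    · rw [ind_neg h, if_neg h]
  rw [Finset.sum_congr rfl (fun x _ => h1 x), ← Finset.sum_filter, Finset.sum_const, nsmul_eq_mul,
    mul_one]
  have h2 : (univ.filter (fun x : Fin n => x.val / l = β)).card ≤ (range l).card := by
    apply Finset.card_le_card_of_injOn (fun x : Fin n => x.val % l)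
    · intro x _
      simp only [coe_range, Set.mem_Iio]
      exact Nat.mod_lt _ hl
    · intro x hx x' hx' h
      simp only [coe_filter, mem_univ, true_and, Set.mem_ofPred_eq] at hx hx'
      have h3 : x.val % l = x'.val % l := h
      apply Fin.ext
      rw [← Nat.div_add_mod x.val l, ← Nat.div_add_mod x'.val l, hx, hx', h3]
  rw [card_range] at h2
  exact_mod_cast h2

theorem RepP_div_of_le {k k' : ℕ} (h : k ≤ k') {X X' : ℕ} (he : X / P.U k = X' / P.U k) :
    X / P.U k' = X' / P.U k' := by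
  obtain ⟨w, hw⟩ := P.U_dvd h
  rw [hw, ← Nat.div_div_eq_div_mul, ← Nat.div_div_eq_div_mul, he]

theorem RepP_mem_Db {i β : ℕ} {k : Fin P.La} {x : Fin P.N} (hk : P.lv k.val < i)
    (hx : x.val / P.T i = β) (y : Fin P.N) :
    ((k, dv (P.T (P.lv k.val)) x, y) : P.Co) ∈ P.Db i β := by
  refine ⟨hk.le, ?_⟩
  show x.val / P.T (P.lv k.val) / (P.T i / P.T (P.lv k.val)) = β
  obtain ⟨w, hw⟩ := P.T_dvd hk.le
  rw [Nat.div_div_eq_div_mul, hw, Nat.mul_div_cancel_left _ (P.T_pos _), ← hw, hx]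

theorem av_rep {ψ : Fin (P.z ^ P.D) → Fin P.N} {i : ℕ} (F : P.Prof ψ i) {r : P.Rr} (hr : Gd F r)
    (β : ℕ) (ω : P.Sp) :
    av (fun ω' : P.Sp => ind (P.Rep (mix (P.Db i β) ω ω') ψ i (F.k 0) β r)) ≤
      (P.T i : ℝ) * ((P.d * P.La : ℕ) : ℝ) ^ P.h * (1 / (P.Q : ℝ)) ^ P.h := by
  classical
  -- the coordinates of a choice
  obtain ⟨co, hco⟩ : ∃ co : Fin P.N × ((Fin P.h → Fin P.d) × (Fin P.h → Fin P.La)) →
      Fin P.h → P.Co, ∀ θ a, co θ a =
        (θ.2.2 a, dv (P.T (P.lv (θ.2.2 a).val)) θ.1, dv (P.U (θ.2.2 a).val) (ψ (P.lf r (θ.2.1 a)))) :=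
    ⟨fun θ a => _, fun _ _ => rfl⟩
  obtain ⟨ev, hev⟩ : ∃ ev : Fin P.N × ((Fin P.h → Fin P.d) × (Fin P.h → Fin P.La)) →
      P.Sp → Prop, ∀ θ ω', ev θ ω' ↔ ((θ.1.val / P.T i = β ∧ Function.Injective θ.2.1 ∧
        ∀ a, (θ.2.2 a).val ≤ F.k 0) ∧ ∀ a, (ω' (co θ a)).val = 0) :=
    ⟨fun θ ω' => _, fun _ _ => Iff.rfl⟩
  have h1 : ∀ ω' : P.Sp, ind (P.Rep (mix (P.Db i β) ω ω') ψ i (F.k 0) β r) ≤ ∑ θ, ind (ev θ ω') := by
    intro ω'
    apply ind_le_sum
    rintro ⟨x, hx, S, hS, hall⟩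
    have e : Fin P.h ≃ S := (S.equivFinOfCardEq hS).symm
    have hall' : ∀ a : Fin P.h, ∃ k : Fin P.La, k.val ≤ F.k 0 ∧ P.lv k.val < i ∧
        P.fl (mix (P.Db i β) ω ω') k x (ψ (P.lf r (e a).val)) = 1 := fun a => hall _ (e a).2
    choose κ hκ1 hκ2 hκ3 using hall'
    refine ⟨(x, (fun a => (e a).val, κ)), (hev _ _).mpr ⟨⟨hx, ?_, hκ1⟩, ?_⟩⟩
    · intro a a' h
      exact e.injective (Subtype.ext h)
    · intro a
      have h3 := P.RepP_fl_eq_one.mp (hκ3 a)
      rw [mix_mem (P.RepP_mem_Db (hκ2 a) hx _)] at h3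
      rw [hco]
      exact h3
  have h2 : ∀ θ, av (fun ω' => ind (ev θ ω')) ≤
      ind (θ.1.val / P.T i = β) * (1 / (P.Q : ℝ)) ^ P.h := by
    intro θ
    by_cases hθ : θ.1.val / P.T i = β ∧ Function.Injective θ.2.1 ∧ ∀ a, (θ.2.2 a).val ≤ F.k 0
    · obtain ⟨hx, hg, hk⟩ := hθ
      have hinj : Function.Injective (co θ) := by
        intro a a' h
        rw [hco, hco] at h
        simp only [Prod.mk.injEq] at h
        obtain ⟨h3, -, h5⟩ := h
        rw [h3] at h5
        have h6 : (ψ (P.lf r (θ.2.1 a))).val / P.U (θ.2.2 a').val =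
            (ψ (P.lf r (θ.2.1 a'))).val / P.U (θ.2.2 a').val := congrArg Fin.val h5
        exact hg (geo_fine hr (hk a') h6)
      have e5 : ∀ ω', ind (ev θ ω') ≤ ∏ a, (fun (_ : Fin P.h) (b : Fin P.Q) => ind (b.val = 0)) a
          (ω' (co θ a)) := by
        intro ω'
        have e6 : ∏ a, (fun (_ : Fin P.h) (b : Fin P.Q) => ind (b.val = 0)) a (ω' (co θ a)) =
            ind (∀ a, (ω' (co θ a)).val = 0) := by
          rw [ind_forall]
        rw [e6]
        apply ind_mono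
        intro h
        exact ((hev _ _).mp h).2
      rw [ind_pos hx, one_mul]
      calc av (fun ω' => ind (ev θ ω')) ≤ av (fun ω' : P.Sp =>
            ∏ a, (fun (_ : Fin P.h) (b : Fin P.Q) => ind (b.val = 0)) a (ω' (co θ a))) :=
            av_mono e5
        _ = ∏ a, av ((fun (_ : Fin P.h) (b : Fin P.Q) => ind (b.val = 0)) a) :=
            av_coords (co θ) hinj (fun (_ : Fin P.h) (b : Fin P.Q) => ind (b.val = 0))
        _ = (1 / (P.Q : ℝ)) ^ P.h := by
            have : ∀ a : Fin P.h, av ((fun (_ : Fin P.h) (b : Fin P.Q) => ind (b.val = 0)) a) =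
                1 / (P.Q : ℝ) := fun _ => av_ind_eq P.Q_pos
            rw [Finset.prod_congr rfl (fun a _ => this a), Finset.prod_const, Finset.card_univ,
              Fintype.card_fin]
    · have : ∀ ω', ind (ev θ ω') = 0 := by
        intro ω'
        apply ind_neg
        intro h
        exact hθ ((hev _ _).mp h).1
      simp only [this]
      rw [av_const]
      apply mul_nonneg (ind_nonneg _)
      positivity
  refine (av_mono h1).trans ?_
  rw [av_sum]
  refine (Finset.sum_le_sum (fun θ _ => h2 θ)).trans ?_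
  rw [Fintype.sum_prod_type]
  have h3 : ∀ x : Fin P.N, ∑ _y : (Fin P.h → Fin P.d) × (Fin P.h → Fin P.La),
      ind (x.val / P.T i = β) * (1 / (P.Q : ℝ)) ^ P.h =
      ind (x.val / P.T i = β) * (((P.d * P.La : ℕ) : ℝ) ^ P.h * (1 / (P.Q : ℝ)) ^ P.h) := by
    intro x
    rw [Finset.sum_const, Finset.card_univ, nsmul_eq_mul]
    simp only [Fintype.card_prod, Fintype.card_fun, Fintype.card_fin]
    push_cast
    rw [mul_pow _ (P.La : ℝ)]
    ring
  rw [Finset.sum_congr rfl (fun x _ => h3 x), ← Finset.sum_mul, mul_assoc (P.T i : ℝ)]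
  apply mul_le_mul_of_nonneg_right (RepP_sum_div _ _ _ (P.T_pos i))
  positivity

end Par

end Pool.Agent.H76.LY
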