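import Pool.Agent.H76.LY.TupleP
import Pool.Agent.H76.LY.MatchP
import Pool.Agent.H76.LY.RepP
import Pool.Agent.H76.LY.Det
import Pool.Agent.H76.LY.Seq

/-! The probability that all rows of a block can be placed in a time cell. -/

namespace Pool.Agent.H76.LY

open Finset Pool.Agent.H46.SR Pool.Agent.H46.TS Pool.Agent.H76.LX

namespace Par

variable (P : Par)

/-- the bound for one block and one cell -/
noncomputable def pp (c : ℝ) (i : ℕ) : ℝ :=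
  (1 - c * (1 / (2 ^ P.d * (P.Q : ℝ)))) ^ (P.z ^ (P.τ + 1)) +
    (P.z : ℝ) ^ (P.τ + 1) * ((P.T i : ℝ) * ((P.d * P.La : ℕ) : ℝ) ^ P.h *
      (1 / (P.Q : ℝ)) ^ P.h)

theorem block_sub {ψ : Fin (P.z ^ P.D) → Fin P.N} {i : ℕ} (F : P.Prof ψ i) {β : ℕ}
    (hβ : β < P.N / P.T i) : D3 F β ⊆ P.Db i β := by
  rintro c ⟨⟨j, h1⟩, h2⟩
  have hlev : P.lv (F.ks j.val) = i := (F.hks j.val (by have := j.2; omega)).2.2
  have hT : 0 < P.T i := P.T_pos i
  have h3 : β * P.T i < P.N :=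
    lt_of_lt_of_le (Nat.mul_lt_mul_of_pos_right hβ hT) (Nat.div_mul_le_self _ _)
  refine ⟨?_, ?_⟩
  · rw [h1, hlev]
  · rw [h1, hlev, Nat.div_self hT, Nat.div_one, h2, h1, hlev]
    show (β * P.T i % P.N) / P.T i = β
    rw [Nat.mod_eq_of_lt h3]
    exact Nat.mul_div_cancel _ hT

theorem block_mix {ι B : Type*} {D D' : Set ι} (h : D' ⊆ D) (ω w1 w2 : ι → B) :
    mix D ω (mix D' w1 w2) = mix D' (mix D ω w1) w2 := by
  funext c
  by_cases h' : c ∈ D'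
  · rw [mix_mem (h h'), mix_mem h', mix_mem h']
  · rw [mix_not_mem h']
    by_cases h'' : c ∈ D
    · rw [mix_mem h'', mix_mem h'', mix_not_mem h']
    · rw [mix_not_mem h'', mix_not_mem h'']

theorem block_comm {X Y : Type*} [Fintype X] [Fintype Y] (f : X → Y → ℝ) :
    av (fun a => av (fun b => f a b)) = av (fun b => av (fun a => f a b)) := by
  have h1 : av (fun a => av (fun b => f a b)) = av (fun p : X × Y => f p.1 p.2) :=
    (av_prod (fun p : X × Y => f p.1 p.2)).symm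
  have h2 : av (fun b => av (fun a => f a b)) = av (fun p : Y × X => f p.2 p.1) :=
    (av_prod (fun p : Y × X => f p.2 p.1)).symm
  rw [h1, h2]
  exact (av_equiv (Equiv.prodComm X Y) (fun p : Y × X => f p.2 p.1))

theorem block_split {ψ : Fin (P.z ^ P.D) → Fin P.N} {i : ℕ} (F : P.Prof ψ i) {β x : ℕ}
    (ω : P.Sp) (rows : Fin x → P.Rr) :
    ind (∀ a, P.Plc ω ψ i β (rows a)) ≤
      ind (∀ a, ¬ (Gd F (rows a) ∧ P.Mat ω ψ i β (rows a))) +
        ∑ a, ind (Gd F (rows a) ∧ P.Rep ω ψ i (F.k 0) β (rows a)) := by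
  have hs : 0 ≤ ∑ a, ind (Gd F (rows a) ∧ P.Rep ω ψ i (F.k 0) β (rows a)) :=
    Finset.sum_nonneg (fun a _ => ind_nonneg _)
  by_cases h : ∀ a, P.Plc ω ψ i β (rows a)
  · rw [ind_pos h]
    by_cases h1 : ∀ a, ¬ (Gd F (rows a) ∧ P.Mat ω ψ i β (rows a))
    · rw [ind_pos h1]
      linarith
    · rw [ind_neg h1]
      push Not at h1
      obtain ⟨a, hg, hm⟩ := h1
      have h2 : P.Rep ω ψ i (F.k 0) β (rows a) := P.det F hg hm (h a)
      have h3 : (1 : ℝ) ≤ ∑ a, ind (Gd F (rows a) ∧ P.Rep ω ψ i (F.k 0) β (rows a)) := by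
        calc (1 : ℝ) = ind (Gd F (rows a) ∧ P.Rep ω ψ i (F.k 0) β (rows a)) :=
              (ind_pos ⟨hg, h2⟩).symm
          _ ≤ _ := Finset.single_le_sum
              (f := fun a => ind (Gd F (rows a) ∧ P.Rep ω ψ i (F.k 0) β (rows a)))
              (fun a _ => ind_nonneg _) (mem_univ a)
      linarith
  · rw [ind_neg h]
    have := ind_nonneg (∀ a, ¬ (Gd F (rows a) ∧ P.Mat ω ψ i β (rows a)))
    linarith

theorem block_rep {ψ : Fin (P.z ^ P.D) → Fin P.N} {i : ℕ} (F : P.Prof ψ i) (β x : ℕ)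
    (ω : P.Sp) :
    av (fun p : (Fin x → P.Rr) × P.Sp =>
      ∑ a, ind (Gd F (p.1 a) ∧ P.Rep (mix (P.Db i β) ω p.2) ψ i (F.k 0) β (p.1 a))) ≤
      (x : ℝ) * ((P.T i : ℝ) * ((P.d * P.La : ℕ) : ℝ) ^ P.h * (1 / (P.Q : ℝ)) ^ P.h) := by
  set K : ℝ := (P.T i : ℝ) * ((P.d * P.La : ℕ) : ℝ) ^ P.h * (1 / (P.Q : ℝ)) ^ P.h with hK
  have hK0 : 0 ≤ K := by
    rw [hK]
    positivity
  rw [av_sum univ (fun (a : Fin x) (p : (Fin x → P.Rr) × P.Sp) =>
    ind (Gd F (p.1 a) ∧ P.Rep (mix (P.Db i β) ω p.2) ψ i (F.k 0) β (p.1 a)))]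
  have h1 : ∀ a : Fin x, av (fun p : (Fin x → P.Rr) × P.Sp =>
      ind (Gd F (p.1 a) ∧ P.Rep (mix (P.Db i β) ω p.2) ψ i (F.k 0) β (p.1 a))) ≤ K := by
    intro a
    rw [av_prod]
    have h2 : ∀ rows : Fin x → P.Rr, av (fun w : P.Sp =>
        ind (Gd F (rows a) ∧ P.Rep (mix (P.Db i β) ω w) ψ i (F.k 0) β (rows a))) ≤ K := by
      intro rows
      by_cases hg : Gd F (rows a)
      · refine le_trans (av_mono (fun w => ind_mono (fun h => h.2))) ?_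
        exact P.av_rep F hg β ω
      · have h3 : ∀ w : P.Sp,
            ind (Gd F (rows a) ∧ P.Rep (mix (P.Db i β) ω w) ψ i (F.k 0) β (rows a)) = 0 :=
          fun w => ind_neg (fun h => hg h.1)
        rw [av_congr h3, av_const]
        exact hK0
    exact (av_mono h2).trans (av_const K).le
  refine (Finset.sum_le_sum (fun a _ => h1 a)).trans (le_of_eq ?_)
  rw [Finset.sum_const, Finset.card_univ, Fintype.card_fin, nsmul_eq_mul]

theorem block_mat {ψ : Fin (P.z ^ P.D) → Fin P.N} {i : ℕ} (F : P.Prof ψ i) {β : ℕ}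
    (hβ : β < P.N / P.T i) {c : ℝ} (hc0 : 0 ≤ c) (hc1 : c ≤ 1) (hc : c ≤ P.cst) (ω : P.Sp) :
    av (fun p : (Fin (P.z ^ (P.τ + 1)) → P.Rr) × P.Sp =>
      ind (∀ a, ¬ (Gd F (p.1 a) ∧ P.Mat (mix (P.Db i β) ω p.2) ψ i β (p.1 a)))) ≤
      (1 - c * (1 / (2 ^ P.d * (P.Q : ℝ)))) ^ (P.z ^ (P.τ + 1)) := by
  set x : ℕ := P.z ^ (P.τ + 1) with hx
  have hQ : (1 : ℝ) ≤ (P.Q : ℝ) := by exact_mod_cast P.Q_pos
  have h2d : (1 : ℝ) ≤ 2 ^ P.d := one_le_pow₀ (by norm_num)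
  have hπ0 : (0 : ℝ) ≤ 1 / (2 ^ P.d * (P.Q : ℝ)) := by positivity
  have hπ1 : 1 / (2 ^ P.d * (P.Q : ℝ)) ≤ 1 := by
    rw [div_le_one (by positivity)]
    nlinarith
  have h1 : ∀ v : P.Sp, av (fun p : (Fin x → P.Rr) × P.Sp =>
      ind (∀ a, ¬ (Gd F (p.1 a) ∧ P.Mat (mix (D3 F β) v p.2) ψ i β (p.1 a)))) ≤
      (1 - c * (1 / (2 ^ P.d * (P.Q : ℝ)))) ^ x := by
    intro v
    exact seq (fun r : P.Rr => Gd F r) (fun r => Cf F β r)
      (fun r w => P.Mat (mix (D3 F β) v w) ψ i β r) hπ0 hπ1 hc0 hc1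
      (fun r => P.card_Cf F β r) (fun r _ w w' h => P.mat_dep F r β v w w' h)
      (fun r hr => P.av_mat F hr β v) (fun S hS => hc.trans (P.av_gd F β S hS))
  rw [av_prod]
  have h2 : ∀ rows : Fin x → P.Rr, av (fun w : P.Sp =>
      ind (∀ a, ¬ (Gd F (rows a) ∧ P.Mat (mix (P.Db i β) ω w) ψ i β (rows a)))) =
      av (fun w1 : P.Sp => av (fun w2 : P.Sp =>
        ind (∀ a, ¬ (Gd F (rows a) ∧
          P.Mat (mix (D3 F β) (mix (P.Db i β) ω w1) w2) ψ i β (rows a))))) := by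
    intro rows
    rw [av_mix (D3 F β)]
    apply av_congr
    intro w1
    apply av_congr
    intro w2
    rw [block_mix (P.block_sub F hβ)]
  rw [av_congr h2, block_comm]
  have h3 : ∀ w1 : P.Sp, av (fun rows : Fin x → P.Rr => av (fun w2 : P.Sp =>
        ind (∀ a, ¬ (Gd F (rows a) ∧
          P.Mat (mix (D3 F β) (mix (P.Db i β) ω w1) w2) ψ i β (rows a))))) ≤
      (1 - c * (1 / (2 ^ P.d * (P.Q : ℝ)))) ^ x := by
    intro w1
    have h4 := h1 (mix (P.Db i β) ω w1)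
    rw [av_prod] at h4
    exact h4
  exact (av_mono h3).trans (av_const _).le

theorem block {ψ : Fin (P.z ^ P.D) → Fin P.N} {i : ℕ} (hi : i < P.L) (F : P.Prof ψ i) {β : ℕ}
    (hβ : β < P.N / P.T i) {c : ℝ} (hc0 : 0 ≤ c) (hc1 : c ≤ 1) (hc : c ≤ P.cst) (ω : P.Sp) :
    av (fun p : (Fin (P.z ^ (P.τ + 1)) → P.Rr) × P.Sp =>
      ind (∀ a, P.Plc (mix (P.Db i β) ω p.2) ψ i β (p.1 a))) ≤ P.pp c i := by
  refine le_trans (av_mono (fun p => P.block_split F (mix (P.Db i β) ω p.2) p.1)) ?_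
  rw [av_add]
  have h1 := P.block_mat F hβ hc0 hc1 hc ω
  have h2 := P.block_rep F β (P.z ^ (P.τ + 1)) ω
  have h3 : (((P.z ^ (P.τ + 1) : ℕ)) : ℝ) = (P.z : ℝ) ^ (P.τ + 1) := by push_cast; ring
  rw [h3] at h2
  unfold pp
  linarith

end Par

end Pool.Agent.H76.LY
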