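import Pool.Agent.H76.LX.Defs

/-! Definitions: the multi-scale colouring and the random rows (one base column, nested blocks). -/

namespace Pool.Agent.H76.LY

open Finset Pool.Agent.H46.SR Pool.Agent.H46.TS Pool.Agent.H76.LX

/-- the sample space of one row: `d` scales, a base column, `d` columns -/
abbrev Rw (z d D : ℕ) : Type :=
  (Fin d → Fin (D + 1)) × (Fin (z ^ D) × (Fin d → Fin (z ^ D)))

/-- the columns of the ones of a row: column `l` is uniform in the block of scale `s l` of the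
base column -/
def lfN {z d D : ℕ} (r : Rw z d D) (l : Fin d) : ℕ :=
  pl (z ^ (r.1 l).val) r.2.1.val (r.2.2 l).val

theorem lfN_lt {z d D : ℕ} (hz : 0 < z) (r : Rw z d D) (l : Fin d) : lfN r l < z ^ D := by
  have h1 : (r.1 l).val ≤ D := by have := (r.1 l).2; omega
  unfold lfN
  exact pl_lt (pow_pos hz _) (pow_dvd_pow _ h1) r.2.1.2 _

/-- all parameters -/
structure Par where
  z : ℕ
  d : ℕ
  L : ℕ
  M0 : ℕ
  δ : ℕ
  t0 : ℕ
  ρ : ℕ
  τ : ℕ
  D : ℕ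
  G : ℕ
  hz : 2 ≤ z
  hd : 2 ≤ d
  hL : 1 ≤ L
  hM0 : 2 ≤ M0
  hτ : 1 ≤ τ
  hG : G ≤ δ * M0 ^ L
  ht : t0 + ρ * (L - 1) ≤ G
  hD : 2 * M0 ^ L + (δ + 3) * (d * M0 ^ (L - 1)) + (δ + τ + 7) ≤ D

namespace Par

variable (P : Par)

/-- number of scales -/
def La : ℕ := P.M0 ^ P.L
/-- length of a time cell -/
def T (i : ℕ) : ℕ := P.z ^ (P.t0 + P.ρ * i)
/-- length of a column cell -/
def U (k : ℕ) : ℕ := P.z ^ (P.δ * k)
/-- side of the coloured matrix -/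
def N : ℕ := P.z ^ P.G
/-- number of values of a coordinate -/
def Q : ℕ := P.z ^ P.τ
/-- level of a scale -/
noncomputable def lv (k : ℕ) : ℕ := lev P.L P.M0 k
/-- number of independent repairs needed -/
def h : ℕ := P.d / 2

theorem zpos : 0 < P.z := by have := P.hz; omega
theorem dpos : 0 < P.d := by have := P.hd; omega
theorem T_pos (i : ℕ) : 0 < P.T i := pow_pos P.zpos _
theorem U_pos (k : ℕ) : 0 < P.U k := pow_pos P.zpos _
theorem N_pos : 0 < P.N := pow_pos P.zpos _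
theorem Q_pos : 0 < P.Q := pow_pos P.zpos _
theorem Q_ge : 2 ≤ P.Q := by
  unfold Q
  calc 2 ≤ P.z := P.hz
    _ = P.z ^ 1 := (pow_one _).symm
    _ ≤ P.z ^ P.τ := Nat.pow_le_pow_right P.zpos P.hτ
theorem lv_lt (k : ℕ) : P.lv k < P.L := by
  have := lev_le P.L P.M0 k
  have := P.hL
  unfold lv
  omega
theorem T_dvd {i j : ℕ} (h : i ≤ j) : P.T i ∣ P.T j := by
  unfold T
  exact pow_dvd_pow _ (by have := Nat.mul_le_mul_left P.ρ h; omega)
theorem U_dvd {i j : ℕ} (h : i ≤ j) : P.U i ∣ P.U j := by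
  unfold U
  exact pow_dvd_pow _ (Nat.mul_le_mul_left _ h)
theorem T_dvd_N {i : ℕ} (h : i < P.L) : P.T i ∣ P.N := by
  unfold T N
  apply pow_dvd_pow
  have h1 := P.ht
  have h2 : P.ρ * i ≤ P.ρ * (P.L - 1) := Nat.mul_le_mul_left _ (by omega)
  omega

instance : NeZero P.N := ⟨P.N_pos.ne'⟩
instance : NeZero P.Q := ⟨P.Q_pos.ne'⟩
instance : Nonempty (Fin P.Q) := ⟨⟨0, P.Q_pos⟩⟩

/-- integer division on `Fin n` -/
def dv {n : ℕ} (l : ℕ) (x : Fin n) : Fin n := ⟨x.val / l, lt_of_le_of_lt (Nat.div_le_self _ _) x.2⟩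

/-- the coordinates: scale, time cell, column cell -/
abbrev Co : Type := Fin P.La × Fin P.N × Fin P.N
/-- the random colouring -/
abbrev Sp : Type := P.Co → Fin P.Q
/-- the random row -/
abbrev Rr : Type := Rw P.z P.d P.D

instance : Nonempty P.Rr := by
  have h : 0 < P.z ^ P.D := pow_pos P.zpos _
  exact ⟨(fun _ => ⟨0, Nat.succ_pos _⟩, (⟨0, h⟩, fun _ => ⟨0, h⟩))⟩

/-- the flip of scale `k` at the point `(x, y)` -/
noncomputable def fl (ω : P.Sp) (k : Fin P.La) (x y : Fin P.N) : ZMod 2 :=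
  if (ω (k, dv (P.T (P.lv k.val)) x, dv (P.U k.val) y)).val = 0 then 1 else 0

/-- the colour -/
noncomputable def col (ω : P.Sp) (x y : Fin P.N) : ZMod 2 := ∑ k : Fin P.La, P.fl ω k x y

/-- the columns of a row -/
def lf (r : P.Rr) (l : Fin P.d) : Fin (P.z ^ P.D) := ⟨lfN r l, lfN_lt P.zpos r l⟩

/-- row `r` can be placed in the time cell `β` of level `i`, in some colour -/
def Plc (ω : P.Sp) (ψ : Fin (P.z ^ P.D) → Fin P.N) (i β : ℕ) (r : P.Rr) : Prop :=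
  ∃ x : Fin P.N, x.val / P.T i = β ∧ ∃ t : ZMod 2, ∀ l, P.col ω x (ψ (P.lf r l)) = t

/-- the coordinates of level at most `i` inside the time cell `β` of level `i` -/
def Db (i β : ℕ) : Set P.Co := {c | P.lv c.1.val ≤ i ∧ c.2.1.val / (P.T i / P.T (P.lv c.1.val)) = β}

/-- the data of a profile: scales `k 0 < ks 0 ≤ k 1 < ks 1 ≤ .. ≤ k (d-1)`, block scales `s j`,
good columns `TT` -/
structure Prof (ψ : Fin (P.z ^ P.D) → Fin P.N) (i : ℕ) where
  k : ℕ → ℕ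
  ks : ℕ → ℕ
  s : ℕ → ℕ
  TT : Finset (Fin (P.z ^ P.D))
  hks : ∀ j, j + 1 < P.d → k j < ks j ∧ ks j ≤ k (j + 1) ∧ P.lv (ks j) = i
  hk : ∀ j, j < P.d → k j < P.La
  hs0 : s 0 = 0
  hs : ∀ j, j < P.d → s j ≤ P.D
  hlev : ∀ κ, k 0 < κ → κ ≤ k (P.d - 1) → i ≤ P.lv κ
  hTT : P.z ^ P.D ≤ TT.card * (2 * (P.D + 1) ^ (P.La + 1))
  hb : ∀ j, 1 ≤ j → j < P.d → ∀ b ∈ TT, ∀ b' : Fin (P.z ^ P.D),
    b'.val / P.z ^ s j = b.val / P.z ^ s j →
      (ψ b').val / P.U (k j + 1) = (ψ b).val / P.U (k j + 1)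
  hJ : ∀ j, 1 ≤ j → j < P.d → ∀ b ∈ TT, (univ.filter (fun b' : Fin (P.z ^ P.D) =>
    (ψ b').val / P.U (k j) = (ψ b).val / P.U (k j))).card * P.z ≤ P.z ^ s j
  hJD : ∀ b ∈ TT, (univ.filter (fun b' : Fin (P.z ^ P.D) =>
    (ψ b').val / P.U (k (P.d - 1) + 1) = (ψ b).val / P.U (k (P.d - 1) + 1))).card *
      P.z ^ (P.τ + 2) ≤ P.z ^ P.D

variable {P}

/-- a row in good position for the profile -/
structure Gd {ψ : Fin (P.z ^ P.D) → Fin P.N} {i : ℕ} (F : P.Prof ψ i) (r : P.Rr) : Prop where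
  g0 : ∀ j : Fin P.d, (r.1 j).val = F.s j.val
  gT : r.2.1 ∈ F.TT
  g1 : ∀ j : Fin P.d, 1 ≤ j.val →
    (ψ (P.lf r j)).val / P.U (F.k j.val) ≠ (ψ r.2.1).val / P.U (F.k j.val)

variable (P)

/-- first point of a time cell -/
def x0 (i β : ℕ) : Fin P.N := ⟨β * P.T i % P.N, Nat.mod_lt _ P.N_pos⟩

/-- the part of the colour given by the flips of level at least `i` -/
noncomputable def hi (ω : P.Sp) (i : ℕ) (x y : Fin P.N) : ZMod 2 :=
  ∑ k ∈ univ.filter (fun k : Fin P.La => i ≤ P.lv k.val), P.fl ω k x y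

open scoped Classical in
/-- the number of odd leaves and the number of even leaves are at least `d / 2` -/
def Mat (ω : P.Sp) (ψ : Fin (P.z ^ P.D) → Fin P.N) (i β : ℕ) (r : P.Rr) : Prop :=
  P.h ≤ (univ.filter (fun l : Fin P.d => P.hi ω i (P.x0 i β) (ψ (P.lf r l)) = 1)).card ∧
  (univ.filter (fun l : Fin P.d => P.hi ω i (P.x0 i β) (ψ (P.lf r l)) = 1)).card + P.h ≤ P.d

/-- the row can be repaired by `d / 2` fine flips of lower level -/
def Rep (ω : P.Sp) (ψ : Fin (P.z ^ P.D) → Fin P.N) (i k0 β : ℕ) (r : P.Rr) : Prop :=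
  ∃ x : Fin P.N, x.val / P.T i = β ∧ ∃ S : Finset (Fin P.d), S.card = P.h ∧
    ∀ l ∈ S, ∃ k : Fin P.La, k.val ≤ k0 ∧ P.lv k.val < i ∧ P.fl ω k x (ψ (P.lf r l)) = 1

variable {P}

/-- the coordinate of scale `ks j` of the column `b` in the time cell `β` -/
noncomputable def cf {ψ : Fin (P.z ^ P.D) → Fin P.N} {i : ℕ} (F : P.Prof ψ i) (β : ℕ)
    (j : Fin (P.d - 1)) (b : Fin (P.z ^ P.D)) : P.Co :=
  (⟨F.ks j.val, by
    have h1 := j.2
    exact lt_of_le_of_lt (F.hks j.val (by omega)).2.1 (F.hk (j.val + 1) (by omega))⟩,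
    dv (P.T (P.lv (F.ks j.val))) (P.x0 i β), dv (P.U (F.ks j.val)) (ψ b))

/-- the coordinates of a row -/
noncomputable def Cf {ψ : Fin (P.z ^ P.D) → Fin P.N} {i : ℕ} (F : P.Prof ψ i) (β : ℕ)
    (r : P.Rr) : Finset P.Co :=
  univ.image (fun p : Fin (P.d - 1) × Fin P.d => cf F β p.1 (P.lf r p.2))

/-- the coordinates of the scales `ks j` of the time cell `β` -/
def D3 {ψ : Fin (P.z ^ P.D) → Fin P.N} {i : ℕ} (F : P.Prof ψ i) (β : ℕ) : Set P.Co :=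
  {c | (∃ j : Fin (P.d - 1), c.1.val = F.ks j.val) ∧ c.2.1 = dv (P.T (P.lv c.1.val)) (P.x0 i β)}

variable (P)

/-- the constant of the tuple lemma -/
noncomputable def cst : ℝ :=
  1 / (((P.D : ℝ) + 1) ^ P.d * (2 * ((P.D : ℝ) + 1) ^ (P.La + 1))) -
    ((P.d : ℝ) + (P.d : ℝ) ^ 4) / P.z

end Par

end Pool.Agent.H76.LY
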