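import Pool.Agent.H76.LY.Param

/-! The lower bound for `f d n` for every `d`. -/

namespace Pool.Agent.H76.LY

open Finset Pool.Agent.H46.SR Pool.Agent.H46.TS Pool.Agent.H76.LX Filter Topology

/-- parameters with `G / E` close to `(d / 2) / 2` -/
theorem exists_prm {d : ℕ} (hd : 3 ≤ d / 2) (B : ℕ) (hB : d / 2 + 2 ≤ B) :
    ∃ R : Prm, R.d = d ∧ ((d / 2 : ℕ) : ℝ) / 2 - ((d / 2 : ℕ) + 1 : ℝ) / (2 * B) ≤
      (R.G : ℝ) / R.E := by
  obtain ⟨h, hh⟩ : ∃ h, h = d / 2 := ⟨_, rfl⟩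
  rw [← hh] at hd hB ⊢
  obtain ⟨L, hL⟩ : ∃ L, L + h + 2 * B = B * h := by
    refine ⟨B * h - h - 2 * B, ?_⟩
    have h1 : (h + 2) * (h - 2) ≤ B * (h - 2) := Nat.mul_le_mul_right _ hB
    obtain ⟨h', rfl⟩ : ∃ h', h = h' + 3 := ⟨h - 3, by omega⟩
    have h2 : B * (h' + 3) = B * (h' + 3 - 2) + 2 * B := by
      have : h' + 3 - 2 = h' + 1 := by omega
      rw [this]
      ring
    have h3 : (h' + 3 + 2) * (h' + 3 - 2) = h' * h' + 6 * h' + 5 := by
      have : h' + 3 - 2 = h' + 1 := by omega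
      rw [this]
      ring
    rw [h3] at h1
    have h4 : h' + 3 ≤ B * (h' + 3 - 2) := by nlinarith
    omega
  have hL2 : 2 ≤ L := by
    obtain ⟨h', rfl⟩ : ∃ h', h = h' + 3 := ⟨h - 3, by omega⟩
    obtain ⟨B', rfl⟩ : ∃ B', B = B' + (h' + 3 + 2) := ⟨B - (h' + 3 + 2), by omega⟩
    have : (B' + (h' + 3 + 2)) * (h' + 3) = B' * h' + 3 * B' + h' * h' + 8 * h' + 15 := by ring
    rw [this] at hL
    nlinarith
  set M0 : ℕ := 2 * d * (2 * B + L) with hM0
  set δ : ℕ := 2 * M0 + 3 * d + 7 with hδ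
  set W : ℕ := M0 ^ (L - 1) with hW
  set s : ℕ := 2 * d * δ * W with hs
  have hd6 : 6 ≤ d := by omega
  have hM0pos : 0 < M0 := by rw [hM0]; positivity
  have hWpos : 0 < W := by rw [hW]; exact pow_pos hM0pos _
  have hML : M0 ^ L = M0 * W := by
    rw [hW, ← pow_succ']
    congr 1
    omega
  have hsδ : δ ≤ s := by
    rw [hs]
    calc δ = 1 * δ * 1 := by ring
      _ ≤ 2 * d * δ * W := by
          apply Nat.mul_le_mul _ hWpos
          exact Nat.mul_le_mul_right _ (by omega)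
  have hM0ge : 3 * L + 7 ≤ M0 := by
    rw [hM0]
    have : 12 * (2 * B + L) ≤ 2 * d * (2 * B + L) := Nat.mul_le_mul_right _ (by omega)
    omega
  have hs1 : 3 * L + 7 ≤ s := by omega
  have hsD : 2 * M0 ^ L + (δ + 3) * (d * M0 ^ (L - 1)) + (δ + 7) ≤ s := by
    rw [hML, ← hW]
    have h1 : δ * 1 ≤ δ * W := Nat.mul_le_mul_left _ hWpos
    have h2 : 2 * d * δ * W = d * (δ * W) + d * (δ * W) := by ring
    have h3 : (δ + 3) * (d * W) = d * (δ * W) + 3 * (d * W) := by ring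
    have h4 : 6 * (δ * W) ≤ d * (δ * W) := Nat.mul_le_mul_right _ hd6
    have h5 : δ * W = 2 * (M0 * W) + 3 * (d * W) + 7 * W := by rw [hδ]; ring
    rw [hs, h2, h3]
    omega
  have hG : (2 * B + L) * s = δ * M0 ^ L := by
    rw [hML, hs]
    have : δ * (M0 * W) = δ * (2 * d * (2 * B + L) * W) := by rw [← hM0]
    rw [this]
    ring
  have hB1 : 5 ≤ B := by omega
  -- exponents
  have hBs : B * s = (B - 1) * s + s := by
    obtain ⟨B', rfl⟩ : ∃ B', B = B' + 1 := ⟨B - 1, by omega⟩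
    rw [Nat.add_sub_cancel]
    ring
  obtain ⟨τ, hτ⟩ : ∃ τ, τ = (B - 1) * s := ⟨_, rfl⟩
  rw [← hτ] at hBs
  have hτs : s ≤ τ := by
    rw [hτ]
    calc s = 1 * s := (one_mul s).symm
      _ ≤ (B - 1) * s := Nat.mul_le_mul_right _ (by omega)
  have hρL : (s - 3) * (L - 1) + 3 * (L - 1) = s * (L - 1) := by
    rw [← add_mul]
    congr 1
    omega
  have hsL : s * (L - 1) + s = L * s := by
    obtain ⟨L', rfl⟩ : ∃ L', L = L' + 1 := ⟨L - 1, by omega⟩
    rw [Nat.add_sub_cancel]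
    ring
  have hBL : (2 * B + L) * s = 2 * (B * s) + L * s := by ring
  -- the value of G
  obtain ⟨G, hGd⟩ : ∃ G, G + 4 = 2 * (B * s) + s + (s - 3) * (L - 1) :=
    ⟨2 * (B * s) + s + (s - 3) * (L - 1) - 4, by omega⟩
  have hU : 2 * (B * s) + G ≤ τ * h + 2 * (B * s) := by
    -- G ≤ (2 B + L) s ≤ (B - 1) h s
    have h1 : G ≤ (2 * B + L) * s := by rw [hBL]; omega
    have h2 : (2 * B + L) * s = τ * h := by
      have h3 : 2 * B + L = (B - 1) * h := by
        obtain ⟨B', rfl⟩ : ∃ B', B = B' + 1 := ⟨B - 1, by omega⟩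
        rw [Nat.add_sub_cancel]
        have : (B' + 1) * h = B' * h + h := by ring
        omega
      rw [h3, hτ]
      ring
    omega
  refine ⟨{ d := d, L := L, M0 := M0, δ := δ, t0 := B * s - 2, ρ := s - 3, τ := τ, D := B * s,
            G := G, E := 2 * (B * s), hd := by omega, hL := by omega, hM0 := by omega,
            hτ := by omega, hG := ?_, hG' := ?_, hD := ?_, hρ := ?_, ht0 := ?_, hU := ?_ }, rfl,
            ?_⟩
  · rw [← hG, hBL]
    omega
  · omega
  · have : δ + τ + 7 = (δ + 7) + τ := by ring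
    rw [this]
    omega
  · omega
  · omega
  · rw [← hh]
    exact hU
  · show (h : ℝ) / 2 - ((h : ℝ) + 1) / (2 * B) ≤ (G : ℝ) / ((2 * (B * s) : ℕ) : ℝ)
    have hBR : (0 : ℝ) < B := by
      have : 0 < B := by omega
      exact_mod_cast this
    have hsR : (0 : ℝ) < s := by
      have : 0 < s := by omega
      exact_mod_cast this
    rw [le_div_iff₀ (by push_cast; positivity)]
    have h1 : ((h : ℝ) / 2 - ((h : ℝ) + 1) / (2 * B)) * ((2 * (B * s) : ℕ) : ℝ) =
        (B * h - h - 1) * s := by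
      push_cast
      field_simp
      ring
    rw [h1]
    have h2 : (L : ℝ) + h + 2 * B = B * h := by exact_mod_cast hL
    have h3 : (G : ℝ) + 4 + 3 * (L - 1 : ℕ) + s = 2 * (B * s) + s + L * s := by
      have : G + 4 + 3 * (L - 1) + s = 2 * (B * s) + s + L * s := by omega
      exact_mod_cast this
    have h4 : (3 : ℝ) * (L - 1 : ℕ) + 4 ≤ s := by
      have : 3 * (L - 1) + 4 ≤ s := by omega
      exact_mod_cast this
    nlinarith

theorem n_le_f (d : ℕ) {n : ℕ} (hn : 1 ≤ n) : n ≤ Pool.Agent.H68.RS.f d n := by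
  have hM : ∀ r : Fin n, {c : Fin n | (fun _ _ : Fin n => False) r c}.ncard ≤ d := by
    intro r
    simp
  have h1 : n - 1 < Pool.Agent.H68.RS.R (fun _ _ : Fin n => False) := by
    apply lt_R hn hM (χ := fun _ _ => true)
    rintro ⟨b, f, g, hf, hg, _⟩
    have := Fintype.card_le_of_injective f hf.injective
    simp only [Fintype.card_fin] at this
    omega
  have h2 := le_f hn hM
  omega

theorem linear_exponent (d : ℕ) {α : ℝ} (hα : α < ((d / 2 : ℕ) : ℝ) / 2) :
    ∀ᶠ n : ℕ in atTop, (n : ℝ) ^ α ≤ Pool.Agent.H68.RS.f d n := by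
  by_cases hα1 : α ≤ 1
  · filter_upwards [eventually_ge_atTop 1] with n hn
    have h1 : (1 : ℝ) ≤ n := by exact_mod_cast hn
    calc (n : ℝ) ^ α ≤ (n : ℝ) ^ (1 : ℝ) := Real.rpow_le_rpow_of_exponent_le h1 hα1
      _ = n := Real.rpow_one _
      _ ≤ Pool.Agent.H68.RS.f d n := by exact_mod_cast n_le_f d hn
  · push Not at hα1
    have hd : 3 ≤ d / 2 := by
      have h1 : (2 : ℝ) < ((d / 2 : ℕ) : ℝ) := by linarith
      have h2 : 2 < d / 2 := by exact_mod_cast h1
      exact h2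
    obtain ⟨h, hh⟩ : ∃ h, h = d / 2 := ⟨_, rfl⟩
    rw [← hh] at hα
    set ε : ℝ := (h : ℝ) / 2 - α with hε
    have hε0 : 0 < ε := by rw [hε]; linarith
    obtain ⟨B, hB⟩ := exists_nat_gt (((h : ℝ) + 1) / (2 * ε) + h + 2)
    have hh0 : (0 : ℝ) ≤ h := Nat.cast_nonneg _
    have hB2 : h + 2 ≤ B := by
      have h1 : 0 ≤ ((h : ℝ) + 1) / (2 * ε) := by positivity
      have h2 : ((h + 2 : ℕ) : ℝ) < B := by push_cast; linarith
      have h3 : h + 2 < B := by exact_mod_cast h2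
      omega
    obtain ⟨R, hRd, hR⟩ := exists_prm hd B (by rw [← hh]; exact hB2)
    rw [← hh] at hR
    have hB0 : (0 : ℝ) < B := by
      have : 0 < B := by omega
      exact_mod_cast this
    have h1 : ((h : ℝ) + 1) / (2 * B) < ε := by
      rw [div_lt_iff₀ (by positivity)]
      have h2 : ((h : ℝ) + 1) / (2 * ε) < B := by linarith
      rw [div_lt_iff₀ (by positivity)] at h2
      linarith
    have hE : (0 : ℝ) < R.E := by
      have := R.hρ
      have := R.hτ
      have : 0 < R.E := by omega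
      exact_mod_cast this
    have h2 : α < (R.G : ℝ) / R.E := by linarith
    have h3 : α * R.E < R.G := by
      rw [lt_div_iff₀ hE] at h2
      exact h2
    have := R.eventually_n (by linarith) h3
    rw [hRd] at this
    exact this

end Pool.Agent.H76.LY
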