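import Pool.Agent.H76.LY.Defs

/-! The position of the leaves of a good row. -/

namespace Pool.Agent.H76.LY

open Finset Pool.Agent.H46.SR Pool.Agent.H46.TS Pool.Agent.H76.LX

namespace Par

variable {P : Par} {ψ : Fin (P.z ^ P.D) → Fin P.N} {i : ℕ}

theorem geo_div_up {κ κ' : ℕ} (h : κ ≤ κ') {x y : ℕ} (hxy : x / P.U κ = y / P.U κ) :
    x / P.U κ' = y / P.U κ' := by
  obtain ⟨c, hc⟩ := P.U_dvd h
  rw [hc, ← Nat.div_div_eq_div_mul, ← Nat.div_div_eq_div_mul, hxy]

theorem k_lt (F : P.Prof ψ i) {j l : ℕ} (hjl : j < l) (hl : l < P.d) : F.k j < F.k l := by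
  induction l with
  | zero => omega
  | succ m ih =>
    have h1 := F.hks m hl
    rcases Nat.lt_succ_iff_lt_or_eq.mp hjl with h | h
    · have h2 := ih h (by omega)
      omega
    · subst h
      omega

theorem geo_k_le (F : P.Prof ψ i) {j l : ℕ} (hjl : j ≤ l) (hl : l < P.d) : F.k j ≤ F.k l := by
  rcases Nat.lt_or_eq_of_le hjl with h | h
  · exact (k_lt F h hl).le
  · subst h
    exact le_rfl

/-- leaf `l` is in the cell of the base column at all scales above `k l` -/
theorem geo_eq {F : P.Prof ψ i} {r : P.Rr} (hr : Gd F r) (l : Fin P.d) {κ : ℕ}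
    (hκ : F.k l.val < κ) : (ψ (P.lf r l)).val / P.U κ = (ψ r.2.1).val / P.U κ := by
  have h0 := hr.g0 l
  rcases Nat.eq_zero_or_pos l.val with hl | hl
  · have h1 : P.lf r l = r.2.1 := by
      apply Fin.ext
      show lfN r l = r.2.1.val
      unfold lfN pl
      rw [h0, hl, F.hs0, pow_zero, Nat.mod_one, Nat.div_one, mul_one, add_zero]
    rw [h1]
  · apply geo_div_up (κ := F.k l.val + 1) hκ
    apply F.hb l.val hl l.2 r.2.1 hr.gT (P.lf r l)
    show lfN r l / P.z ^ F.s l.val = r.2.1.val / P.z ^ F.s l.val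
    unfold lfN
    rw [h0]
    exact pl_div (pow_pos P.zpos _) _ _

/-- leaf `j ≥ 1` is outside the cell of the base column at all scales up to `k j` -/
theorem geo_ne0 {F : P.Prof ψ i} {r : P.Rr} (hr : Gd F r) {j : Fin P.d} (hj : 1 ≤ j.val) {κ : ℕ}
    (hκ : κ ≤ F.k j.val) : (ψ (P.lf r j)).val / P.U κ ≠ (ψ r.2.1).val / P.U κ := by
  intro h
  exact hr.g1 j hj (geo_div_up hκ h)

/-- leaves `l < j` are in different cells at all scales up to `k j` -/
theorem geo_ne {F : P.Prof ψ i} {r : P.Rr} (hr : Gd F r) {l j : Fin P.d} (hlj : l < j) {κ : ℕ}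
    (hκ : κ ≤ F.k j.val) : (ψ (P.lf r j)).val / P.U κ ≠ (ψ (P.lf r l)).val / P.U κ := by
  intro h
  have hlj' : l.val < j.val := hlj
  have h1 := geo_div_up hκ h
  have h2 := geo_eq hr l (k_lt F hlj' j.2)
  exact hr.g1 j (by omega) (h1.trans h2)

/-- at scale `ks j` exactly the leaves `0, .., j` are in the cell of the base column -/
theorem geo_ks {F : P.Prof ψ i} {r : P.Rr} (hr : Gd F r) {j : ℕ} (hj : j + 1 < P.d)
    (l : Fin P.d) :
    (ψ (P.lf r l)).val / P.U (F.ks j) = (ψ r.2.1).val / P.U (F.ks j) ↔ l.val ≤ j := by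
  have h1 := F.hks j hj
  constructor
  · intro h
    by_contra hcon
    push Not at hcon
    have h2 : F.k (j + 1) ≤ F.k l.val := geo_k_le F hcon l.2
    exact geo_ne0 hr (by omega) (h1.2.1.trans h2) h
  · intro h
    have h2 : F.k l.val ≤ F.k j := geo_k_le F h (by omega)
    exact geo_eq hr l (lt_of_le_of_lt h2 h1.1)

/-- at scales up to `k 0` all leaves are in different cells -/
theorem geo_fine {F : P.Prof ψ i} {r : P.Rr} (hr : Gd F r) {l l' : Fin P.d} {κ : ℕ}
    (hκ : κ ≤ F.k 0) (h : (ψ (P.lf r l)).val / P.U κ = (ψ (P.lf r l')).val / P.U κ) :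
    l = l' := by
  by_contra hcon
  rcases lt_or_gt_of_ne hcon with hlt | hlt
  · exact geo_ne hr hlt (hκ.trans (geo_k_le F (Nat.zero_le _) l'.2)) h.symm
  · exact geo_ne hr hlt (hκ.trans (geo_k_le F (Nat.zero_le _) l.2)) h

/-- at scales above `k (d - 1)` all leaves are in the same cell -/
theorem geo_coarse {F : P.Prof ψ i} {r : P.Rr} (hr : Gd F r) (l : Fin P.d) {κ : ℕ}
    (hκ : F.k (P.d - 1) < κ) : (ψ (P.lf r l)).val / P.U κ = (ψ r.2.1).val / P.U κ := by
  have hl := l.2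
  have h2 : F.k l.val ≤ F.k (P.d - 1) := geo_k_le F (by omega) (by omega)
  exact geo_eq hr l (lt_of_le_of_lt h2 hκ)

end Par

end Pool.Agent.H76.LY

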