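import Pool.Agent.H76.LX.Defs
import Pool.Agent.H76.LX.ProfB

/-! Active scales: for every level `d` active scales with exactly the right levels in between. -/

namespace Pool.Agent.H76.LY

open Finset Pool.Agent.H76.LX

theorem profileB {L M0 δ D τ d : ℕ} (hL : 1 ≤ L) (hM0 : 2 ≤ M0) (hd : 1 ≤ d)
    (hD : 2 * M0 ^ L + (δ + 3) * (d * M0 ^ (L - 1)) + (δ + τ + 7) ≤ D) (Pr : ℕ → ℕ)
    (h0 : Pr 0 = 0) (h1 : Pr (M0 ^ L) = D)
    (h2 : ∀ k < M0 ^ L, Pr k ≤ Pr (k + 1) ∧ Pr (k + 1) ≤ Pr k + δ + 3) {i : ℕ} (hi : i < L) :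
    ∃ k ks : ℕ → ℕ,
      (∀ j, j + 1 < d → k j < ks j ∧ ks j ≤ k (j + 1) ∧ lev L M0 (ks j) = i) ∧
      (∀ j, j < d → k j < M0 ^ L ∧ Pr (k j) + 3 ≤ Pr (k j + 1) ∧ Pr (k j) + δ + τ + 7 ≤ D) ∧
      ∀ κ, k 0 < κ → κ ≤ k (d - 1) → i ≤ lev L M0 κ := by
  classical
  set Act := (range (M0 ^ L)).filter (fun k => Pr k + 3 ≤ Pr (k + 1) ∧ Pr k + δ + τ + 7 ≤ D)
    with hAct
  have hex : ∃ k, k ≤ M0 ^ L ∧ D < Pr k + δ + τ + 7 := ⟨M0 ^ L, le_rfl, by omega⟩
  obtain ⟨hk0, hk0'⟩ := Nat.find_spec hex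
  set k0 := Nat.find hex with hk0def
  have hmin : ∀ k < k0, Pr k + δ + τ + 7 ≤ D := by
    intro k hk
    have := Nat.find_min hex hk
    push Not at this
    exact this (by omega)
  have hsub : (range k0).filter (fun k => Pr k + 3 ≤ Pr (k + 1)) ⊆ Act := by
    intro k hk
    simp only [mem_filter, mem_range, hAct] at hk ⊢
    exact ⟨by omega, hk.2, hmin k hk.1⟩
  have hsum := profB_sum Pr h0 (fun k hk => (h2 k hk).2) k0 hk0
  have hcard : d * M0 ^ (L - 1) < Act.card := by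
    by_contra hcon
    push Not at hcon
    have hc := (card_le_card hsub).trans hcon
    have := Nat.mul_le_mul_left (δ + 3) hc
    omega
  have hLe : M0 ^ L = M0 ^ i * M0 ^ (L - 1 - i + 1) := by
    rw [← pow_add]; congr 1; omega
  have hLe' : M0 ^ (L - 1) = M0 ^ i * M0 ^ (L - 1 - i) := by
    rw [← pow_add]; congr 1; omega
  have hpos : 0 < M0 ^ (L - 1 - i) := pow_pos (by omega) _
  have hpos' : 0 < M0 ^ (L - 1 - i + 1) := pow_pos (by omega) _
  have hmaps : ∀ k ∈ Act, (fun k => (k / M0 ^ (L - 1 - i + 1), k % M0 ^ (L - 1 - i))) k ∈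
      (range (M0 ^ i)) ×ˢ (range (M0 ^ (L - 1 - i))) := by
    intro k hk
    simp only [hAct, mem_filter, mem_range] at hk
    simp only [mem_product, mem_range]
    refine ⟨?_, Nat.mod_lt _ hpos⟩
    apply Nat.div_lt_of_lt_mul
    rw [mul_comm, ← hLe]
    exact hk.1
  have hcard' : ((range (M0 ^ i)) ×ˢ (range (M0 ^ (L - 1 - i)))).card * d ≤ Act.card := by
    rw [card_product, card_range, card_range, ← hLe', mul_comm]
    exact hcard.le
  have hne : ((range (M0 ^ i)) ×ˢ (range (M0 ^ (L - 1 - i)))).Nonempty := by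
    rw [nonempty_product]
    refine ⟨⟨0, ?_⟩, ⟨0, ?_⟩⟩
    · rw [mem_range]; exact pow_pos (by omega) _
    · rw [mem_range]; exact hpos
  obtain ⟨y, -, hyc⟩ := exists_le_card_fiber_of_mul_le_card_of_maps_to hmaps hne hcard'
  set S := Act.filter
    (fun k => (fun k => (k / M0 ^ (L - 1 - i + 1), k % M0 ^ (L - 1 - i))) k = y) with hS
  set e := S.orderEmbOfCardLe hyc with he
  have hmem : ∀ j, e j ∈ S := fun j => S.orderEmbOfCardLe_mem hyc j
  have hA : ∀ j, e j < M0 ^ L ∧ Pr (e j) + 3 ≤ Pr (e j + 1) ∧ Pr (e j) + δ + τ + 7 ≤ D := by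
    intro j
    have h := hmem j
    simp only [hS, hAct, mem_filter, mem_range] at h
    exact ⟨h.1.1, h.1.2.1, h.1.2.2⟩
  have hB : ∀ j j', e j / M0 ^ (L - 1 - i + 1) = e j' / M0 ^ (L - 1 - i + 1) ∧
      e j % M0 ^ (L - 1 - i) = e j' % M0 ^ (L - 1 - i) := by
    intro j j'
    have h := hmem j
    have h' := hmem j'
    simp only [hS, mem_filter] at h h'
    have h3 := h.2.trans h'.2.symm
    simp only [Prod.mk.injEq] at h3
    exact h3
  have hC : ∀ j, j + 1 < d → ∃ k3, (∀ (h : j < d) (h' : j + 1 < d), e ⟨j, h⟩ < k3 ∧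
      k3 ≤ e ⟨j + 1, h'⟩) ∧ lev L M0 k3 = i := by
    intro j hj
    have hlt : e ⟨j, by omega⟩ < e ⟨j + 1, hj⟩ := by
      apply e.strictMono
      simp
    obtain ⟨k3, a, b, c, -⟩ := profB_pair hL hM0 hi hlt (hB _ _).1 (hB _ _).2
    exact ⟨k3, fun _ _ => ⟨a, b⟩, c⟩
  choose! ks hks using hC
  refine ⟨fun j => if h : j < d then e ⟨j, h⟩ else 0, ks, ?_, ?_, ?_⟩
  · intro j hj
    obtain ⟨h1', h2'⟩ := hks j hj
    have hj' : j < d := by omega
    simp only [hj, hj', dif_pos]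
    exact ⟨(h1' hj' hj).1, (h1' hj' hj).2, h2'⟩
  · intro j hj
    simp only [hj, dif_pos]
    exact hA _
  · intro κ hκ1 hκ2
    have ha : 0 < d := by omega
    have hb : d - 1 < d := by omega
    simp only [ha, hb, dif_pos] at hκ1 hκ2
    have hlt : e ⟨0, ha⟩ < e ⟨d - 1, hb⟩ := by omega
    obtain ⟨-, -, -, -, hall⟩ := profB_pair hL hM0 hi hlt (hB _ _).1 (hB _ _).2
    exact hall κ hκ1 hκ2

end Pool.Agent.H76.LY
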