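import Pool.Agent.H76.LX.ProfA
import Pool.Agent.H76.LY.ProfB
import Pool.Agent.H76.LY.Defs

/-! Existence of a profile. -/

namespace Pool.Agent.H76.LY

open Finset Pool.Agent.H76.LX

theorem Prof_div' {z s t b b' : ℕ} (h : s ≤ t) (hb : b' / z ^ s = b / z ^ s) :
    b' / z ^ t = b / z ^ t := by
  obtain ⟨u, rfl⟩ := Nat.exists_eq_add_of_le h
  rw [pow_add, ← Nat.div_div_eq_div_mul, ← Nat.div_div_eq_div_mul, hb]

namespace Par

variable (P : Par)

theorem exists_prof (hzb : 2 * (2 * P.D * (P.La + 1) + P.La) + 2 ≤ P.z)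
    (ψ : Fin (P.z ^ P.D) → Fin P.N) (hψ : StrictMono ψ) {i : ℕ} (hi : i < P.L) :
    Nonempty (P.Prof ψ i) := by
  obtain ⟨Pr, TT, hTT, h0, h1, hst, hb⟩ :=
    profileA (z := P.z) (δ := P.δ) (Λ := P.La) (D := P.D) (G := P.G) hzb P.hG ψ hψ
  obtain ⟨k, ks, hks, hk, hlv⟩ :=
    profileB P.hL P.hM0 (by have := P.hd; omega : 1 ≤ P.d) P.hD Pr h0 h1 hst hi
  have hk' : ∀ j, j < P.d → k j < P.La := fun j hj => (hk j hj).1
  have hd := P.hd
  refine ⟨{ k := k, ks := ks, s := fun j => if j = 0 then 0 else Pr (k j) + 3, TT := TT,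
            hks := hks, hk := hk', hs0 := if_pos rfl, hs := ?_, hlev := hlv, hTT := hTT,
            hb := ?_, hJ := ?_, hJD := ?_ }⟩
  · intro j hj
    have h := (hk j hj).2.2
    split_ifs <;> omega
  · intro j hj1 hj b hbT b' hbb
    rw [if_neg (by omega)] at hbb
    exact (hb b hbT (k j + 1) (hk' j hj)).1 b' (Prof_div' (hk j hj).2.1 hbb)
  · intro j hj1 hj b hbT
    rw [if_neg (by omega)]
    have h := (hb b hbT (k j) (hk' j hj).le).2
    calc _ ≤ P.z ^ (Pr (k j) + 2) * P.z := Nat.mul_le_mul_right _ h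
      _ = P.z ^ (Pr (k j) + 3) := by ring
  · intro b hbT
    have hj : P.d - 1 < P.d := by omega
    have h := (hb b hbT (k (P.d - 1) + 1) (hk' _ hj)).2
    have h2 := (hst (k (P.d - 1)) (hk' _ hj)).2
    have h3 := (hk (P.d - 1) hj).2.2
    calc _ ≤ P.z ^ (Pr (k (P.d - 1) + 1) + 2) * P.z ^ (P.τ + 2) := Nat.mul_le_mul_right _ h
      _ = P.z ^ (Pr (k (P.d - 1) + 1) + 2 + (P.τ + 2)) := (pow_add _ _ _).symm
      _ ≤ P.z ^ P.D := Nat.pow_le_pow_right P.zpos (by omega)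

end Par

end Pool.Agent.H76.LY
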