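import Pool.Agent.H76.LY.Main
import Pool.Agent.H46.TS.Param

/-! The choice of the parameters. -/

namespace Pool.Agent.H76.LY

open Finset Pool.Agent.H46.SR Pool.Agent.H46.TS Pool.Agent.H76.LX Filter Topology

/-- the parameters other than `z` -/
structure Prm where
  d : ℕ
  L : ℕ
  M0 : ℕ
  δ : ℕ
  t0 : ℕ
  ρ : ℕ
  τ : ℕ
  D : ℕ
  G : ℕ
  E : ℕ
  hd : 2 ≤ d
  hL : 1 ≤ L
  hM0 : 2 ≤ M0
  hτ : 1 ≤ τ
  hG : G ≤ δ * M0 ^ L
  hG' : G + τ + 2 = E + t0 + ρ * (L - 1)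
  hD : 2 * M0 ^ L + (δ + 3) * (d * M0 ^ (L - 1)) + (δ + τ + 7) ≤ D
  hρ : ρ + D + τ + 3 = E
  ht0 : t0 + D + 2 = E
  hU : E + G ≤ τ * (d / 2) + 2 * D

namespace Prm

variable (R : Prm)

theorem ht : R.t0 + R.ρ * (R.L - 1) ≤ R.G := by
  have h1 := R.hG'
  have h2 := R.hρ
  omega

def par (z : ℕ) (hz : 2 ≤ z) : Par where
  z := z
  d := R.d
  L := R.L
  M0 := R.M0
  δ := R.δ
  t0 := R.t0
  ρ := R.ρ
  τ := R.τ
  D := R.D
  G := R.G
  hz := hz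
  hd := R.hd
  hL := R.hL
  hM0 := R.hM0
  hτ := R.hτ
  hG := R.hG
  ht := R.ht
  hD := R.hD

/-- the constant -/
noncomputable def c0 : ℝ :=
  1 / (((R.D : ℝ) + 1) ^ R.d * (2 * ((R.D : ℝ) + 1) ^ (R.M0 ^ R.L + 1)))

theorem c0_pos : 0 < R.c0 := by unfold c0; positivity

theorem c0_le : R.c0 ≤ 1 := by
  unfold c0
  have h1 : (1 : ℝ) ≤ ((R.D : ℝ) + 1) ^ R.d := one_le_pow₀ (by
    have : (0 : ℝ) ≤ R.D := Nat.cast_nonneg _
    linarith)
  have h2 : (1 : ℝ) ≤ ((R.D : ℝ) + 1) ^ (R.M0 ^ R.L + 1) := one_le_pow₀ (by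
    have : (0 : ℝ) ≤ R.D := Nat.cast_nonneg _
    linarith)
  rw [div_le_one (by positivity)]
  nlinarith

/-- the bound of one term of the union bound -/
theorem term_le {z : ℕ} (hz : 2 ≤ z) {i : ℕ} (hi : i < R.L)
    (h1 : (R.G : ℝ) * Real.log z ≤ z / (1 / Real.log 2))
    (h2 : ((R.E : ℝ) + R.G) * Real.log z + Real.log (4 * Real.exp 2 * ((R.L : ℝ) + 1)) ≤
      z / (2 ^ (R.d + 1) / R.c0))
    (h3 : 4 * Real.exp 2 * ((R.d * R.M0 ^ R.L : ℕ) : ℝ) ^ (R.d / 2) * ((R.L : ℝ) + 1) ≤ z) :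
    (((R.par z hz).N : ℕ) : ℝ) ^ (z ^ R.D) *
      ((((z ^ (R.E - R.τ - 1) : ℕ) : ℝ) ^ (z ^ (R.D + 1)) / ((z ^ (R.D + 1)).factorial : ℝ)) *
      ((((R.par z hz).N / (R.par z hz).T i : ℕ) : ℝ) ^ (z ^ (R.D + 1)) /
        ((z ^ (R.D + 1)).factorial : ℝ)) *
        (R.par z hz).pp (R.c0 / 2) i ^ (z ^ (R.D + 1))) ≤ 1 / ((R.L : ℝ) + 1) := by
  have hz0 : (0 : ℝ) < z := by
    have : 0 < z := by omega
    exact_mod_cast this
  have hz1 : (1 : ℝ) ≤ z := by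
    have : 1 ≤ z := by omega
    exact_mod_cast this
  set v : ℕ := z ^ (R.D + 1) with hv
  have hv0 : 0 < v := by rw [hv]; positivity
  have hvR : ((v : ℕ) : ℝ) = (z : ℝ) ^ (R.D + 1) := by rw [hv]; push_cast; rfl
  have hv0' : (0 : ℝ) < v := by exact_mod_cast hv0
  -- factorial
  have hfac : ∀ K : ℕ, (K : ℝ) ^ v / (v.factorial : ℝ) ≤ (Real.exp 1 * K / v) ^ v := by
    intro K
    have h4 := Real.pow_div_factorial_le_exp (v : ℝ) hv0'.le v
    have h5 : (Real.exp 1 * K / v) ^ v = (K : ℝ) ^ v * (Real.exp v / (v : ℝ) ^ v) := by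
      have h6 : Real.exp (v : ℝ) = Real.exp 1 ^ v := by
        rw [← Real.exp_nat_mul, mul_one]
      rw [h6, div_pow, mul_pow]
      ring
    rw [h5, div_eq_mul_inv]
    apply mul_le_mul_of_nonneg_left _ (by positivity)
    rw [le_div_iff₀ (by positivity)]
    have hf0 : (0 : ℝ) < (v.factorial : ℝ) := by exact_mod_cast Nat.factorial_pos v
    calc ((v.factorial : ℝ))⁻¹ * (v : ℝ) ^ v = (v : ℝ) ^ v / (v.factorial : ℝ) := by
          field_simp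
      _ ≤ Real.exp v := h4
  -- N ^ m
  have hN : (((R.par z hz).N : ℕ) : ℝ) = (z : ℝ) ^ R.G := by
    show ((z ^ R.G : ℕ) : ℝ) = _
    push_cast
    rfl
  have hNm : (((R.par z hz).N : ℕ) : ℝ) ^ (z ^ R.D) ≤ 2 ^ v := by
    rw [hN, ← pow_mul]
    have h4 : (z : ℝ) ^ (R.G * z ^ R.D) = Real.exp ((R.G * (z : ℝ) ^ R.D) * Real.log z) := by
      rw [← Real.rpow_natCast, Real.rpow_def_of_pos hz0]
      congr 1
      push_cast
      ring
    have h5 : (2 : ℝ) ^ v = Real.exp ((z : ℝ) ^ R.D * z * Real.log 2) := by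
      rw [← Real.rpow_natCast, Real.rpow_def_of_pos (by norm_num : (0 : ℝ) < 2)]
      congr 1
      rw [hvR, pow_succ]
      ring
    rw [h4, h5]
    apply Real.exp_le_exp.mpr
    have hl2 : 0 < Real.log 2 := Real.log_pos (by norm_num)
    have h6 : (R.G : ℝ) * Real.log z ≤ z * Real.log 2 := by
      rw [div_div_eq_mul_div, div_one] at h1
      exact h1
    have h7 : (0 : ℝ) ≤ (z : ℝ) ^ R.D := by positivity
    nlinarith
  -- the block bound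
  have hpp0 := (R.par z hz).pp_nonneg (c := R.c0 / 2) (by have := R.c0_le; linarith) i
  obtain ⟨pp, hpp⟩ : ∃ pp : ℝ, pp = (R.par z hz).pp (R.c0 / 2) i := ⟨_, rfl⟩
  rw [← hpp] at hpp0 ⊢
  have hTpos : 0 < (R.par z hz).T i := (R.par z hz).T_pos i
  have hdiv : ((R.par z hz).N / (R.par z hz).T i) * (R.par z hz).T i = (R.par z hz).N :=
    Nat.div_mul_cancel ((R.par z hz).T_dvd_N hi)
  obtain ⟨K, hK⟩ : ∃ K : ℕ, K = (R.par z hz).N / (R.par z hz).T i := ⟨_, rfl⟩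
  rw [← hK] at hdiv ⊢
  have hdivR : (K : ℝ) * ((R.par z hz).T i : ℝ) = (z : ℝ) ^ R.G := by
    rw [← hN, ← hdiv]
    push_cast
    rfl
  have hT1 : (1 : ℝ) ≤ ((R.par z hz).T i : ℝ) := by exact_mod_cast hTpos
  have hK0 : (0 : ℝ) ≤ K := Nat.cast_nonneg _
  have hKle : (K : ℝ) ≤ (z : ℝ) ^ R.G := by nlinarith
  have hτE : R.τ + 1 ≤ R.E := by have := R.hρ; omega
  have hnb : ((z ^ (R.E - R.τ - 1) : ℕ) : ℝ) * (z : ℝ) ^ (R.τ + 1) = (z : ℝ) ^ R.E := by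
    push_cast
    rw [← pow_add]
    congr 1
    omega
  obtain ⟨nb, hnbd⟩ : ∃ nb : ℕ, nb = z ^ (R.E - R.τ - 1) := ⟨_, rfl⟩
  rw [← hnbd] at hnb ⊢
  have hnb0 : (0 : ℝ) ≤ nb := Nat.cast_nonneg _
  have hnble : (nb : ℝ) ≤ (z : ℝ) ^ R.E := by
    have : (1 : ℝ) ≤ (z : ℝ) ^ (R.τ + 1) := one_le_pow₀ hz1
    nlinarith
  have hmain : nb * K * pp * (2 * Real.exp 2) ≤ 1 / ((R.L : ℝ) + 1) * (v : ℝ) ^ 2 := by
    have hL0 : (0 : ℝ) < (R.L : ℝ) + 1 := by positivity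
    -- first part
    have hQ : (((R.par z hz).Q : ℕ) : ℝ) = (z : ℝ) ^ R.τ := by
      show ((z ^ R.τ : ℕ) : ℝ) = _
      push_cast
      rfl
    have hpart1 : (nb : ℝ) * K * (1 - R.c0 / 2 * (1 / (2 ^ R.d * (z : ℝ) ^ R.τ))) ^
        (z ^ (R.τ + 1)) * (2 * Real.exp 2) ≤ 1 / (2 * ((R.L : ℝ) + 1)) := by
      have h4 : (1 - R.c0 / 2 * (1 / (2 ^ R.d * (z : ℝ) ^ R.τ))) ^ (z ^ (R.τ + 1)) ≤
          Real.exp (-(z / (2 ^ (R.d + 1) / R.c0))) := by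
        have h5 : R.c0 / 2 * (1 / (2 ^ R.d * (z : ℝ) ^ R.τ)) ≤ 1 := by
          have h6 : 1 / (2 ^ R.d * (z : ℝ) ^ R.τ) ≤ 1 := by
            rw [div_le_one (by positivity)]
            have h7 : (1 : ℝ) ≤ 2 ^ R.d := one_le_pow₀ (by norm_num)
            have h8 : (1 : ℝ) ≤ (z : ℝ) ^ R.τ := one_le_pow₀ hz1
            nlinarith
          have h7 : 0 ≤ 1 / (2 ^ R.d * (z : ℝ) ^ R.τ) := by positivity
          have h8 := R.c0_le
          have h9 := R.c0_pos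
          nlinarith
        refine (one_sub_pow_le h5 _).trans (le_of_eq ?_)
        congr 2
        push_cast
        rw [pow_succ (z : ℝ) R.τ, pow_succ (2 : ℝ) R.d]
        have h9 := R.c0_pos
        field_simp
      have h5 : (0 : ℝ) < 4 * Real.exp 2 * ((R.L : ℝ) + 1) := by positivity
      have h6 : (z : ℝ) ^ R.E * (z : ℝ) ^ R.G * Real.exp (-(z / (2 ^ (R.d + 1) / R.c0))) *
          (4 * Real.exp 2 * ((R.L : ℝ) + 1)) ≤ 1 := by
        have h7 : (z : ℝ) ^ R.E * (z : ℝ) ^ R.G = Real.exp (((R.E : ℝ) + R.G) * Real.log z) := by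
          rw [← pow_add, ← Real.rpow_natCast, Real.rpow_def_of_pos hz0]
          congr 1
          push_cast
          ring
        rw [h7, ← Real.exp_log h5, ← Real.exp_add, ← Real.exp_add]
        rw [Real.exp_le_one_iff]
        linarith
      have h7 : 0 ≤ Real.exp (-(z / (2 ^ (R.d + 1) / R.c0))) := (Real.exp_pos _).le
      rw [le_div_iff₀ (by positivity)]
      calc (nb : ℝ) * K * (1 - R.c0 / 2 * (1 / (2 ^ R.d * (z : ℝ) ^ R.τ))) ^ (z ^ (R.τ + 1)) *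
            (2 * Real.exp 2) * (2 * ((R.L : ℝ) + 1))
          ≤ (nb : ℝ) * K * Real.exp (-(z / (2 ^ (R.d + 1) / R.c0))) *
            (2 * Real.exp 2) * (2 * ((R.L : ℝ) + 1)) := by gcongr
        _ ≤ (z : ℝ) ^ R.E * (z : ℝ) ^ R.G * Real.exp (-(z / (2 ^ (R.d + 1) / R.c0))) *
            (2 * Real.exp 2) * (2 * ((R.L : ℝ) + 1)) := by gcongr
        _ = (z : ℝ) ^ R.E * (z : ℝ) ^ R.G * Real.exp (-(z / (2 ^ (R.d + 1) / R.c0))) *
            (4 * Real.exp 2 * ((R.L : ℝ) + 1)) := by ring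
        _ ≤ 1 := h6
    -- second part
    obtain ⟨C, hC⟩ : ∃ C : ℝ, C = ((R.d * R.M0 ^ R.L : ℕ) : ℝ) ^ (R.d / 2) := ⟨_, rfl⟩
    have hC0 : 0 ≤ C := by rw [hC]; positivity
    have hpart2 : (nb : ℝ) * K * ((z : ℝ) ^ (R.τ + 1) * (((R.par z hz).T i : ℝ) * C *
        (1 / (z : ℝ) ^ R.τ) ^ (R.d / 2))) * (2 * Real.exp 2) ≤
        1 / (2 * ((R.L : ℝ) + 1)) * (v : ℝ) ^ 2 := by
      have h4 : (nb : ℝ) * K * ((z : ℝ) ^ (R.τ + 1) * (((R.par z hz).T i : ℝ) * C *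
          (1 / (z : ℝ) ^ R.τ) ^ (R.d / 2))) * (2 * Real.exp 2) =
          ((z : ℝ) ^ R.E * (z : ℝ) ^ R.G) * C * (1 / (z : ℝ) ^ R.τ) ^ (R.d / 2) *
            (2 * Real.exp 2) := by
        rw [← hnb, ← hdivR]
        ring
      rw [h4]
      have h5 : ((z : ℝ) ^ R.E * (z : ℝ) ^ R.G) * (1 / (z : ℝ) ^ R.τ) ^ (R.d / 2) ≤
          (z : ℝ) ^ (2 * R.D) := by
        rw [one_div_pow, ← pow_mul, mul_one_div, div_le_iff₀ (by positivity), ← pow_add,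
          ← pow_add]
        apply pow_le_pow_right₀ hz1
        have := R.hU
        omega
      have h6 : (v : ℝ) ^ 2 = (z : ℝ) ^ (2 * R.D) * (z : ℝ) ^ 2 := by
        rw [hvR, ← pow_mul, ← pow_add]
        congr 1
        ring
      rw [h6]
      have h7 : 4 * Real.exp 2 * C * ((R.L : ℝ) + 1) ≤ (z : ℝ) ^ 2 := by
        rw [hC]
        calc _ ≤ (z : ℝ) := h3
          _ ≤ (z : ℝ) ^ 2 := by nlinarith
      calc ((z : ℝ) ^ R.E * (z : ℝ) ^ R.G) * C * (1 / (z : ℝ) ^ R.τ) ^ (R.d / 2) *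
            (2 * Real.exp 2)
          = (((z : ℝ) ^ R.E * (z : ℝ) ^ R.G) * (1 / (z : ℝ) ^ R.τ) ^ (R.d / 2)) *
            (C * (2 * Real.exp 2)) := by ring
        _ ≤ (z : ℝ) ^ (2 * R.D) * (C * (2 * Real.exp 2)) :=
            mul_le_mul_of_nonneg_right h5 (by positivity)
        _ = 1 / (2 * ((R.L : ℝ) + 1)) * ((z : ℝ) ^ (2 * R.D) *
            (4 * Real.exp 2 * C * ((R.L : ℝ) + 1))) := by
            field_simp
            ring
        _ ≤ 1 / (2 * ((R.L : ℝ) + 1)) * ((z : ℝ) ^ (2 * R.D) * (z : ℝ) ^ 2) := by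
            gcongr
    have hv1 : (1 : ℝ) ≤ (v : ℝ) ^ 2 := one_le_pow₀ (by exact_mod_cast hv0)
    have hppe : pp = (1 - R.c0 / 2 * (1 / (2 ^ R.d * (z : ℝ) ^ R.τ))) ^ (z ^ (R.τ + 1)) +
        (z : ℝ) ^ (R.τ + 1) * (((R.par z hz).T i : ℝ) * C *
        (1 / (z : ℝ) ^ R.τ) ^ (R.d / 2)) := by
      rw [hpp, hC, ← hQ]
      rfl
    rw [hppe]
    have h8 : 1 / (2 * ((R.L : ℝ) + 1)) ≤ 1 / (2 * ((R.L : ℝ) + 1)) * (v : ℝ) ^ 2 :=
      le_mul_of_one_le_right (by positivity) hv1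
    have h9 : 1 / ((R.L : ℝ) + 1) * (v : ℝ) ^ 2 = 1 / (2 * ((R.L : ℝ) + 1)) * (v : ℝ) ^ 2 +
        1 / (2 * ((R.L : ℝ) + 1)) * (v : ℝ) ^ 2 := by
      field_simp
      ring
    rw [h9]
    calc _ = (nb : ℝ) * K * (1 - R.c0 / 2 * (1 / (2 ^ R.d * (z : ℝ) ^ R.τ))) ^
        (z ^ (R.τ + 1)) * (2 * Real.exp 2) + (nb : ℝ) * K * ((z : ℝ) ^ (R.τ + 1) *
        (((R.par z hz).T i : ℝ) * C * (1 / (z : ℝ) ^ R.τ) ^ (R.d / 2))) * (2 * Real.exp 2) := by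
          ring
      _ ≤ _ := add_le_add (hpart1.trans h8) hpart2
  -- assemble
  have hb0 : 0 ≤ 2 * (Real.exp 1 * nb / v) * (Real.exp 1 * K / v) * pp := by positivity
  have hb1 : 2 * (Real.exp 1 * nb / v) * (Real.exp 1 * K / v) * pp ≤ 1 / ((R.L : ℝ) + 1) := by
    have h4 : 2 * (Real.exp 1 * nb / v) * (Real.exp 1 * K / v) * pp =
        (nb * K * pp * (2 * Real.exp 2)) / (v : ℝ) ^ 2 := by
      have h5 : Real.exp 2 = Real.exp 1 * Real.exp 1 := by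
        rw [← Real.exp_add]
        norm_num
      rw [h5]
      field_simp
    rw [h4, div_le_iff₀ (by positivity)]
    exact hmain
  calc (((R.par z hz).N : ℕ) : ℝ) ^ (z ^ R.D) *
      (((nb : ℝ) ^ v / (v.factorial : ℝ)) * ((K : ℝ) ^ v / (v.factorial : ℝ)) * pp ^ v)
      ≤ 2 ^ v * (((Real.exp 1 * nb / v) ^ v * (Real.exp 1 * K / v) ^ v) * pp ^ v) := by
        apply mul_le_mul hNm _ (by positivity) (by positivity)
        apply mul_le_mul_of_nonneg_right _ (by positivity)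
        exact mul_le_mul (hfac nb) (hfac K) (by positivity) (by positivity)
    _ = (2 * (Real.exp 1 * nb / v) * (Real.exp 1 * K / v) * pp) ^ v := by
        rw [mul_pow, mul_pow, mul_pow]
        ring
    _ ≤ (1 / ((R.L : ℝ) + 1)) ^ v := pow_le_pow_left₀ hb0 hb1 v
    _ ≤ (1 / ((R.L : ℝ) + 1)) ^ 1 := by
        apply pow_le_pow_of_le_one (by positivity) _ hv0
        rw [div_le_one (by positivity)]
        have : (0 : ℝ) ≤ R.L := Nat.cast_nonneg _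
        linarith
    _ = 1 / ((R.L : ℝ) + 1) := pow_one _

theorem lower_z {z : ℕ} (hz : 2 ≤ z)
    (h0 : 2 * (2 * R.D * (R.M0 ^ R.L + 1) + R.M0 ^ R.L) + 2 ≤ z)
    (h1 : (R.G : ℝ) * Real.log z ≤ z / (1 / Real.log 2))
    (h2 : ((R.E : ℝ) + R.G) * Real.log z + Real.log (4 * Real.exp 2 * ((R.L : ℝ) + 1)) ≤
      z / (2 ^ (R.d + 1) / R.c0))
    (h3 : 4 * Real.exp 2 * ((R.d * R.M0 ^ R.L : ℕ) : ℝ) ^ (R.d / 2) * ((R.L : ℝ) + 1) ≤ z)
    (h4 : 2 * ((R.d : ℝ) + (R.d : ℝ) ^ 4) / R.c0 ≤ z) (h5 : 2 * R.L + 2 ≤ z)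
    {n' : ℕ} (hn : z ^ R.E ≤ n') : z ^ R.G < Pool.Agent.H68.RS.f R.d n' := by
  have hz0 : (0 : ℝ) < z := by
    have : 0 < z := by omega
    exact_mod_cast this
  have hzpos : 0 < z := by omega
  have hc0 := R.c0_pos
  have hτE : R.τ + 1 ≤ R.E := by have := R.hρ; omega
  have hDE : R.D ≤ R.E := by have := R.hρ; omega
  have hnx : z ^ (R.E - R.τ - 1) * (R.par z hz).x = z ^ R.E := by
    show z ^ (R.E - R.τ - 1) * z ^ (R.τ + 1) = z ^ R.E
    rw [← pow_add]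
    congr 1
    omega
  have key := (R.par z hz).lower (nb := z ^ (R.E - R.τ - 1)) (v := z ^ (R.D + 1)) (n' := n') h0
    (c := R.c0 / 2) (by linarith) (by have := R.c0_le; linarith) (by
      show R.c0 / 2 ≤ R.c0 - ((R.d : ℝ) + (R.d : ℝ) ^ 4) / z
      have h6 : ((R.d : ℝ) + (R.d : ℝ) ^ 4) / z ≤ R.c0 / 2 := by
        rw [div_le_iff₀ hz0]
        rw [div_le_iff₀ hc0] at h4
        linarith
      linarith) (by
      have h6 : ∀ i ∈ range R.L, (((R.par z hz).N : ℕ) : ℝ) ^ (z ^ R.D) *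
          ((((z ^ (R.E - R.τ - 1) : ℕ) : ℝ) ^ (z ^ (R.D + 1)) /
            ((z ^ (R.D + 1)).factorial : ℝ)) *
          ((((R.par z hz).N / (R.par z hz).T i : ℕ) : ℝ) ^ (z ^ (R.D + 1)) /
            ((z ^ (R.D + 1)).factorial : ℝ)) *
          (R.par z hz).pp (R.c0 / 2) i ^ (z ^ (R.D + 1))) ≤ 1 / ((R.L : ℝ) + 1) :=
        fun i hi => R.term_le hz (mem_range.mp hi) h1 h2 h3
      refine lt_of_le_of_lt (Finset.sum_le_sum h6) ?_
      rw [Finset.sum_const, card_range, nsmul_eq_mul, mul_one_div, div_lt_one (by positivity)]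
      have hLL : (((R.par z hz).L : ℕ) : ℝ) = R.L := rfl
      rw [hLL]
      linarith) (by rw [hnx]; exact hn) (le_trans (Nat.pow_le_pow_right hzpos hDE) hn) (by
      rw [hnx]
      show 2 * z ^ (R.τ + 1) * (z ^ R.G / z ^ (R.t0 + R.ρ * (R.L - 1))) +
        (R.L - 1) * (z ^ (R.D + 1) * z ^ R.ρ * (2 * z ^ (R.τ + 1))) +
        z ^ (R.D + 1) * z ^ (R.t0 + R.ρ * 0) < z ^ R.E
      have hE1 : 1 ≤ R.E := by omega
      have e1 : 2 * z ^ (R.τ + 1) * (z ^ R.G / z ^ (R.t0 + R.ρ * (R.L - 1))) =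
          2 * z ^ (R.E - 1) := by
        rw [Nat.pow_div R.ht hzpos, mul_assoc, ← pow_add]
        congr 2
        have := R.hG'
        have := R.ht
        omega
      have e2 : (R.L - 1) * (z ^ (R.D + 1) * z ^ R.ρ * (2 * z ^ (R.τ + 1))) =
          (R.L - 1) * 2 * z ^ (R.E - 1) := by
        have : z ^ (R.E - 1) = z ^ (R.D + 1) * z ^ R.ρ * z ^ (R.τ + 1) := by
          rw [← pow_add, ← pow_add]
          congr 1
          have := R.hρ
          omega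
        rw [this]
        ring
      have e3 : z ^ (R.D + 1) * z ^ (R.t0 + R.ρ * 0) = z ^ (R.E - 1) := by
        rw [← pow_add]
        congr 1
        have := R.ht0
        omega
      rw [e1, e2, e3]
      have e4 : z ^ R.E = z * z ^ (R.E - 1) := by
        rw [← pow_succ']
        congr 1
        omega
      rw [e4]
      have hp : 0 < z ^ (R.E - 1) := pow_pos hzpos _
      have hL := R.hL
      have e5 : 2 * z ^ (R.E - 1) + (R.L - 1) * 2 * z ^ (R.E - 1) + z ^ (R.E - 1) =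
          (2 + (R.L - 1) * 2 + 1) * z ^ (R.E - 1) := by ring
      rw [e5]
      apply Nat.mul_lt_mul_of_pos_right _ hp
      omega)
  exact key

theorem eventually_z : ∀ᶠ z : ℕ in atTop, ∀ n', z ^ R.E ≤ n' →
    z ^ R.G < Pool.Agent.H68.RS.f R.d n' := by
  have hl2 : 0 < Real.log 2 := Real.log_pos (by norm_num)
  have hc0 := R.c0_pos
  filter_upwards [eventually_ge_atTop 2,
    eventually_ge_atTop (2 * (2 * R.D * (R.M0 ^ R.L + 1) + R.M0 ^ R.L) + 2),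
    ev_log (R.G : ℝ) 0 (1 / Real.log 2) (by positivity),
    ev_log ((R.E : ℝ) + R.G) (Real.log (4 * Real.exp 2 * ((R.L : ℝ) + 1)))
      (2 ^ (R.d + 1) / R.c0) (by positivity),
    ev_const (4 * Real.exp 2 * ((R.d * R.M0 ^ R.L : ℕ) : ℝ) ^ (R.d / 2) * ((R.L : ℝ) + 1)),
    ev_const (2 * ((R.d : ℝ) + (R.d : ℝ) ^ 4) / R.c0),
    eventually_ge_atTop (2 * R.L + 2)] with z hz h0 h1 h2 h3 h4 h5 n' hn
  rw [add_zero] at h1
  exact R.lower_z hz h0 h1 h2 h3 h4 h5 hn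

theorem eventually_n {α : ℝ} (hα0 : 0 ≤ α) (hα : α * R.E < R.G) :
    ∀ᶠ n : ℕ in atTop, (n : ℝ) ^ α ≤ Pool.Agent.H68.RS.f R.d n := by
  have hm1 : 1 ≤ R.E := by have := R.hρ; omega
  have hm0 : (0 : ℝ) < R.E := by exact_mod_cast hm1
  have hz : Tendsto (fun n : ℕ => ⌊(n : ℝ) ^ (1 / (R.E : ℝ))⌋₊) atTop atTop := by
    apply tendsto_nat_floor_atTop.comp
    exact (tendsto_rpow_atTop (by positivity)).comp tendsto_natCast_atTop_atTop
  have e1 := hz.eventually R.eventually_z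
  have e2 : ∀ᶠ z : ℕ in atTop, (2 : ℝ) ^ (α * R.E) ≤ (z : ℝ) ^ (R.G - α * R.E) :=
    ((tendsto_rpow_atTop (by linarith)).comp tendsto_natCast_atTop_atTop).eventually
      (eventually_ge_atTop _)
  have e3 := hz.eventually e2
  have e4 := hz.eventually (eventually_ge_atTop 1)
  filter_upwards [e1, e3, e4] with n h1 h2 h3
  set z := ⌊(n : ℝ) ^ (1 / (R.E : ℝ))⌋₊ with hzdef
  have hz1 : (1 : ℝ) ≤ z := by exact_mod_cast h3
  have hn0 : (0 : ℝ) ≤ n := Nat.cast_nonneg _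
  have hroot : ((n : ℝ) ^ (1 / (R.E : ℝ))) ^ R.E = n := by
    rw [← Real.rpow_natCast, ← Real.rpow_mul hn0]
    rw [one_div_mul_cancel hm0.ne', Real.rpow_one]
  have hle : z ^ R.E ≤ n := by
    have h4 : (z : ℝ) ≤ (n : ℝ) ^ (1 / (R.E : ℝ)) := Nat.floor_le (by positivity)
    have h5 : (z : ℝ) ^ R.E ≤ n := by
      rw [← hroot]
      exact pow_le_pow_left₀ (by linarith) h4 _
    exact_mod_cast h5
  have hlt : (n : ℝ) ≤ (2 * z : ℝ) ^ (R.E : ℝ) := by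
    have h4 : (n : ℝ) ^ (1 / (R.E : ℝ)) ≤ 2 * z := by
      have := (Nat.lt_floor_add_one ((n : ℝ) ^ (1 / (R.E : ℝ)))).le
      rw [← hzdef] at this
      linarith
    rw [Real.rpow_natCast, ← hroot]
    exact pow_le_pow_left₀ (by positivity) h4 _
  have hfin := h1 n hle
  have hfin' : (z : ℝ) ^ (R.G : ℝ) ≤ Pool.Agent.H68.RS.f R.d n := by
    rw [Real.rpow_natCast]
    exact_mod_cast hfin.le
  refine le_trans ?_ hfin'
  calc (n : ℝ) ^ α ≤ ((2 * z : ℝ) ^ (R.E : ℝ)) ^ α := Real.rpow_le_rpow hn0 hlt hα0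
    _ = (2 * z : ℝ) ^ (α * R.E) := by
        rw [← Real.rpow_mul (by linarith)]
        congr 1
        ring
    _ = (2 : ℝ) ^ (α * R.E) * (z : ℝ) ^ (α * R.E) :=
        Real.mul_rpow (by norm_num) (by linarith)
    _ ≤ (z : ℝ) ^ (R.G - α * R.E) * (z : ℝ) ^ (α * R.E) :=
        mul_le_mul_of_nonneg_right h2 (by positivity)
    _ = (z : ℝ) ^ (R.G : ℝ) := by
        rw [← Real.rpow_add (by linarith)]
        congr 1
        ring

end Prm

end Pool.Agent.H76.LY
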