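import Pool.Agent.H76.LY.Defs

/-! A random row is in good position with positive probability. -/

namespace Pool.Agent.H76.LY

open Finset Pool.Agent.H46.SR Pool.Agent.H46.TS Pool.Agent.H76.LX

theorem Tuple_sum_ind {α : Type*} (s : Finset α) (p : α → Prop) [DecidablePred p] :
    ∑ x ∈ s, ind (p x) = ((s.filter p).card : ℝ) := by
  have h : ∀ x, ind (p x) = if p x then (1 : ℝ) else 0 := by
    intro x
    by_cases hx : p x
    · rw [ind_pos hx, if_pos hx]
    · rw [ind_neg hx, if_neg hx]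
  simp only [h]
  rw [Finset.sum_ite]
  simp

/-- the block average -/
theorem Tuple_blk {m k l : ℕ} (hm : m = k * l) (hl : 0 < l) (b : Fin m) (p : ℕ → Prop)
    [DecidablePred p] :
    av (fun Y : Fin m => ind (p (pl l b.val Y.val))) ≤
      ((univ.filter (fun x : Fin m => p x.val)).card : ℝ) / (l : ℝ) := by
  subst hm
  have hk : 0 < k := by
    rcases Nat.eq_zero_or_pos k with h | h
    · subst h
      have := b.2
      omega
    · exact h
  have : Nonempty (Fin k) := ⟨⟨0, hk⟩⟩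
  have h0 : av (fun Y : Fin (k * l) => ind (p (pl l b.val Y.val))) =
      av (fun y : Fin l => ind (p (b.val / l * l + y.val))) := by
    have h1 := av_divmod (k := k) (m := l) (fun _ y => ind (p (b.val / l * l + y)))
    unfold pl
    rw [h1, av_prod]
    exact av_const (Ω := Fin k) (av (fun y : Fin l => ind (p (b.val / l * l + y.val))))
  rw [h0]
  unfold av
  rw [Fintype.card_fin]
  apply div_le_div_of_nonneg_right _ (Nat.cast_nonneg _)
  rw [Tuple_sum_ind univ (fun y : Fin l => p (b.val / l * l + y.val))]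
  have hlt : ∀ y : Fin l, b.val / l * l + y.val < k * l := by
    intro y
    have h1 : b.val / l < k := Nat.div_lt_of_lt_mul (lt_of_lt_of_eq b.2 (mul_comm k l))
    have h2 : (b.val / l + 1) * l ≤ k * l := Nat.mul_le_mul_right l h1
    have h3 : (b.val / l + 1) * l = b.val / l * l + l := by ring
    have := y.2
    omega
  have h4 : (univ.filter (fun y : Fin l => p (b.val / l * l + y.val))).card ≤
      (univ.filter (fun x : Fin (k * l) => p x.val)).card := by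
    apply Finset.card_le_card_of_injOn (fun y : Fin l => (⟨_, hlt y⟩ : Fin (k * l)))
    · intro y hy
      have hy' := (Finset.mem_filter.mp (Finset.mem_coe.mp hy)).2
      exact Finset.mem_coe.mpr (Finset.mem_filter.mpr ⟨mem_univ _, hy'⟩)
    · intro y _ y' _ h
      have h5 := congrArg Fin.val h
      apply Fin.ext
      simp only at h5
      omega
  exact_mod_cast h4

/-- a leaf is uniform -/
theorem Tuple_unif {ι : Type*} [Fintype ι] [DecidableEq ι] {m k l : ℕ} (hm : m = k * l)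
    (hk : 0 < k) (hl : 0 < l) (i : ι) (p : ℕ → Prop) [DecidablePred p] :
    av (fun x : Fin m × (ι → Fin m) => ind (p (pl l x.1.val (x.2 i).val))) ≤
      ((univ.filter (fun x : Fin m => p x.val)).card : ℝ) / (m : ℝ) := by
  have hdvd : l ∣ m := ⟨k, by rw [hm, mul_comm]⟩
  have h1 : ∀ x : Fin m × (ι → Fin m), ind (p (pl l x.1.val (x.2 i).val)) ≤
      ∑ r ∈ univ.filter (fun x : Fin m => p x.val), ind (pl l x.1.val (x.2 i).val = r.val) := by
    intro x
    by_cases h : p (pl l x.1.val (x.2 i).val)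
    · rw [ind_pos h]
      have h2 := Finset.single_le_sum
        (f := fun r : Fin m => ind (pl l x.1.val (x.2 i).val = r.val))
        (s := univ.filter (fun x : Fin m => p x.val)) (fun r _ => ind_nonneg _)
        (a := (⟨pl l x.1.val (x.2 i).val, pl_lt hl hdvd x.1.2 _⟩ : Fin m))
        (Finset.mem_filter.mpr ⟨mem_univ _, h⟩)
      refine le_trans (le_of_eq ?_) h2
      exact (ind_pos rfl).symm
    · rw [ind_neg h]
      exact Finset.sum_nonneg (fun _ _ => ind_nonneg _)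
  refine (av_mono h1).trans ?_
  rw [av_sum]
  calc ∑ r ∈ univ.filter (fun x : Fin m => p x.val),
        av (fun x : Fin m × (ι → Fin m) => ind (pl l x.1.val (x.2 i).val = r.val))
      ≤ ∑ _r ∈ univ.filter (fun x : Fin m => p x.val), 1 / (m : ℝ) :=
        Finset.sum_le_sum (fun r _ => av_pl hm hk hl r.val i)
    _ = ((univ.filter (fun x : Fin m => p x.val)).card : ℝ) / (m : ℝ) := by
        rw [Finset.sum_const, nsmul_eq_mul, mul_one_div]

theorem tuple {J V1 V3 : Type} [Fintype J] [DecidableEq V1] [DecidableEq V3] {z d D τ : ℕ}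
    (hz : 2 ≤ z) (hJ : Fintype.card J ≤ d) (s : Fin d → ℕ) (hs : ∀ j, s j ≤ D)
    (TT : Finset (Fin (z ^ D))) (e : Fin d → Fin (z ^ D) → V1) (g : J → Fin (z ^ D) → V3)
    (h1 : ∀ j : Fin d, 1 ≤ j.val → ∀ b ∈ TT,
      (univ.filter (fun b' => e j b' = e j b)).card * z ≤ z ^ s j)
    (h3 : ∀ (j : J) (l : Fin d), ∀ b ∈ TT, ∀ b' : Fin (z ^ D), b'.val / z ^ s l = b.val / z ^ s l →
      (univ.filter (fun b'' => g j b'' = g j b')).card * z ^ (τ + 2) ≤ z ^ D)
    (S : Finset V3) (hS : S.card ≤ d * d * z ^ (τ + 1)) :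
    1 / ((D : ℝ) + 1) ^ d * ((TT.card : ℝ) / (z : ℝ) ^ D) - ((d : ℝ) + (d : ℝ) ^ 4) / z ≤
      av (fun r : Rw z d D => ind ((∀ j, (r.1 j).val = s j) ∧ r.2.1 ∈ TT ∧
        ∀ w : Fin d → Fin (z ^ D), (∀ l, (w l).val = lfN r l) →
          (∀ j : Fin d, 1 ≤ j.val → e j (w j) ≠ e j r.2.1) ∧ ∀ j l, g j (w l) ∉ S)) := by
  classical
  have hz0 : 0 < z := by omega
  have hm0 : 0 < z ^ D := pow_pos hz0 _
  have hzR : (0 : ℝ) < z := by exact_mod_cast hz0
  have hmR : (0 : ℝ) < (z : ℝ) ^ D := pow_pos hzR _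
  have : Nonempty (Fin (z ^ D)) := ⟨⟨0, hm0⟩⟩
  have hl0 : ∀ l, 0 < z ^ s l := fun l => pow_pos hz0 _
  have hdv : ∀ l, z ^ s l ∣ z ^ D := fun l => pow_dvd_pow _ (hs l)
  have hmk : ∀ l, z ^ D = z ^ (D - s l) * z ^ s l := by
    intro l
    rw [← pow_add]
    congr 1
    have := hs l
    omega
  obtain ⟨W, hW⟩ : ∃ W : Fin (z ^ D) → Fin (z ^ D) → Fin d → Fin (z ^ D), ∀ b Y l,
      (W b Y l).val = pl (z ^ s l) b.val Y.val :=
    ⟨fun b Y l => ⟨pl (z ^ s l) b.val Y.val, pl_lt (hl0 l) (hdv l) b.2 _⟩, fun _ _ _ => rfl⟩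
  -- the event for fixed scales
  obtain ⟨B, hB⟩ : ∃ B : Fin (z ^ D) × (Fin d → Fin (z ^ D)) → Prop, ∀ q, B q ↔
      (q.1 ∈ TT ∧ (∀ j : Fin d, 1 ≤ j.val → e j (W q.1 (q.2 j) j) ≠ e j q.1) ∧
        ∀ j l, g j (W q.1 (q.2 l) l) ∉ S) := ⟨_, fun _ => Iff.rfl⟩
  have hsplit : ∀ r : Rw z d D, ind (∀ j, (r.1 j).val = s j) * ind (B r.2) ≤
      ind ((∀ j, (r.1 j).val = s j) ∧ r.2.1 ∈ TT ∧
        ∀ w : Fin d → Fin (z ^ D), (∀ l, (w l).val = lfN r l) →
          (∀ j : Fin d, 1 ≤ j.val → e j (w j) ≠ e j r.2.1) ∧ ∀ j l, g j (w l) ∉ S) := by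
    intro r
    rw [← ind_and]
    apply ind_mono
    rintro ⟨hA, hBr⟩
    have hBr' := (hB r.2).mp hBr
    refine ⟨hA, hBr'.1, fun w hw => ?_⟩
    have hwW : ∀ l, w l = W r.2.1 (r.2.2 l) l := by
      intro l
      apply Fin.ext
      rw [hw l, hW]
      unfold lfN
      rw [hA l]
    refine ⟨fun j hj => ?_, fun j l => ?_⟩
    · rw [hwW j]
      exact hBr'.2.1 j hj
    · rw [hwW l]
      exact hBr'.2.2 j l
  refine le_trans ?_ (av_mono hsplit)
  rw [av_prod_mul (fun a : Fin d → Fin (D + 1) => ind (∀ j, (a j).val = s j))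
    (fun q : Fin (z ^ D) × (Fin d → Fin (z ^ D)) => ind (B q))]
  have hA : av (fun a : Fin d → Fin (D + 1) => ind (∀ j, (a j).val = s j)) =
      1 / ((D : ℝ) + 1) ^ d := by
    simp only [ind_forall]
    rw [av_pi_prod (fun (j : Fin d) (a : Fin (D + 1)) => ind (a.val = s j))]
    have : ∀ j : Fin d, av (fun a : Fin (D + 1) => ind (a.val = s j)) = 1 / ((D : ℝ) + 1) := by
      intro j
      rw [av_ind_eq (by have := hs j; omega)]
      push_cast
      rfl
    rw [Finset.prod_congr rfl (fun j _ => this j), Finset.prod_const, Finset.card_univ,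
      Fintype.card_fin, one_div_pow]
  rw [hA]
  -- part (2)
  have hP2 : ∀ j : Fin d, av (fun q : Fin (z ^ D) × (Fin d → Fin (z ^ D)) =>
      ind (1 ≤ j.val ∧ q.1 ∈ TT ∧ e j (W q.1 (q.2 j) j) = e j q.1)) ≤ 1 / (z : ℝ) := by
    intro j
    rw [av_prod]
    refine le_trans (av_mono (g := fun _ => 1 / (z : ℝ)) (fun b => ?_)) (av_const _).le
    show av (fun c : Fin d → Fin (z ^ D) =>
      ind (1 ≤ j.val ∧ b ∈ TT ∧ e j (W b (c j) j) = e j b)) ≤ 1 / (z : ℝ)
    rw [av_coord j (fun Y : Fin (z ^ D) => ind (1 ≤ j.val ∧ b ∈ TT ∧ e j (W b Y j) = e j b))]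
    by_cases hj : 1 ≤ j.val ∧ b ∈ TT
    · have h5 : ∀ Y : Fin (z ^ D), ind (1 ≤ j.val ∧ b ∈ TT ∧ e j (W b Y j) = e j b) ≤
          ind ((fun x : ℕ => ∃ h : x < z ^ D, e j ⟨x, h⟩ = e j b) (pl (z ^ s j) b.val Y.val)) := by
        intro Y
        apply ind_mono
        rintro ⟨-, -, h⟩
        refine ⟨pl_lt (hl0 j) (hdv j) b.2 _, ?_⟩
        rw [← h]
        congr 1
        apply Fin.ext
        exact (hW b Y j).symm
      refine (av_mono h5).trans ((Tuple_blk (hmk j) (hl0 j) b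
        (fun x : ℕ => ∃ h : x < z ^ D, e j ⟨x, h⟩ = e j b)).trans ?_)
      have h6 : (univ.filter (fun x : Fin (z ^ D) =>
          (fun x : ℕ => ∃ h : x < z ^ D, e j ⟨x, h⟩ = e j b) x.val)) =
          univ.filter (fun b' => e j b' = e j b) := by
        apply Finset.filter_congr
        intro x _
        exact ⟨fun ⟨_, h⟩ => h, fun h => ⟨x.2, h⟩⟩
      rw [h6]
      have h7 := h1 j hj.1 b hj.2
      have h8 : ((univ.filter (fun b' => e j b' = e j b)).card : ℝ) * z ≤ (z : ℝ) ^ s j := by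
        exact_mod_cast h7
      have h9 : (0 : ℝ) < (z : ℝ) ^ s j := pow_pos hzR _
      push_cast
      rw [div_le_div_iff₀ h9 hzR, one_mul]
      exact h8
    · have h5 : ∀ Y : Fin (z ^ D), ind (1 ≤ j.val ∧ b ∈ TT ∧ e j (W b Y j) = e j b) = 0 := by
        intro Y
        apply ind_neg
        rintro ⟨h, h', -⟩
        exact hj ⟨h, h'⟩
      rw [av_congr h5, av_const]
      positivity
  -- part (3), one value
  have hP3 : ∀ (j : J) (l : Fin d) (v : V3), av (fun q : Fin (z ^ D) × (Fin d → Fin (z ^ D)) =>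
      ind (q.1 ∈ TT ∧ g j (W q.1 (q.2 l) l) = v)) ≤ 1 / (z : ℝ) ^ (τ + 2) := by
    intro j l v
    have hpos : (0 : ℝ) < (z : ℝ) ^ (τ + 2) := pow_pos hzR _
    by_cases hex : ∃ (b : Fin (z ^ D)) (Y : Fin (z ^ D)), b ∈ TT ∧ g j (W b Y l) = v
    · obtain ⟨b, Y, hb, hv⟩ := hex
      have h5 := h3 j l b hb (W b Y l) (by rw [hW, pl_div (hl0 l)])
      rw [hv] at h5
      have h6 : ∀ q : Fin (z ^ D) × (Fin d → Fin (z ^ D)),
          ind (q.1 ∈ TT ∧ g j (W q.1 (q.2 l) l) = v) ≤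
          ind ((fun x : ℕ => ∃ h : x < z ^ D, g j ⟨x, h⟩ = v)
            (pl (z ^ s l) q.1.val (q.2 l).val)) := by
        intro q
        apply ind_mono
        rintro ⟨-, h⟩
        refine ⟨pl_lt (hl0 l) (hdv l) q.1.2 _, ?_⟩
        rw [← h]
        congr 1
        apply Fin.ext
        exact (hW _ _ _).symm
      refine (av_mono h6).trans ((Tuple_unif (hmk l) (pow_pos hz0 _) (hl0 l) l
        (fun x : ℕ => ∃ h : x < z ^ D, g j ⟨x, h⟩ = v)).trans ?_)
      have h7 : (univ.filter (fun x : Fin (z ^ D) =>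
          (fun x : ℕ => ∃ h : x < z ^ D, g j ⟨x, h⟩ = v) x.val)) =
          univ.filter (fun b' => g j b' = v) := by
        apply Finset.filter_congr
        intro x _
        exact ⟨fun ⟨_, h⟩ => h, fun h => ⟨x.2, h⟩⟩
      rw [h7]
      have h8 : ((univ.filter (fun b' => g j b' = v)).card : ℝ) * (z : ℝ) ^ (τ + 2) ≤
          (z : ℝ) ^ D := by
        exact_mod_cast h5
      push_cast
      rw [div_le_div_iff₀ hmR hpos, one_mul]
      exact h8
    · have h5 : ∀ q : Fin (z ^ D) × (Fin d → Fin (z ^ D)),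
          ind (q.1 ∈ TT ∧ g j (W q.1 (q.2 l) l) = v) = 0 := by
        intro q
        apply ind_neg
        rintro ⟨h, h'⟩
        exact hex ⟨q.1, q.2 l, h, h'⟩
      rw [av_congr h5, av_const]
      positivity
  -- part (3)
  have hP4 : ∀ p : J × Fin d, av (fun q : Fin (z ^ D) × (Fin d → Fin (z ^ D)) =>
      ind (q.1 ∈ TT ∧ g p.1 (W q.1 (q.2 p.2) p.2) ∈ S)) ≤ (d : ℝ) ^ 2 / (z : ℝ) := by
    intro p
    have h5 : ∀ q : Fin (z ^ D) × (Fin d → Fin (z ^ D)),
        ind (q.1 ∈ TT ∧ g p.1 (W q.1 (q.2 p.2) p.2) ∈ S) ≤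
          ∑ v ∈ S, ind (q.1 ∈ TT ∧ g p.1 (W q.1 (q.2 p.2) p.2) = v) := by
      intro q
      by_cases h : q.1 ∈ TT ∧ g p.1 (W q.1 (q.2 p.2) p.2) ∈ S
      · rw [ind_pos h]
        have h6 := Finset.single_le_sum
          (f := fun v => ind (q.1 ∈ TT ∧ g p.1 (W q.1 (q.2 p.2) p.2) = v)) (s := S)
          (fun v _ => ind_nonneg _) h.2
        refine le_trans (le_of_eq ?_) h6
        exact (ind_pos ⟨h.1, rfl⟩).symm
      · rw [ind_neg h]
        exact Finset.sum_nonneg (fun _ _ => ind_nonneg _)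
    refine (av_mono h5).trans ?_
    rw [av_sum]
    refine (Finset.sum_le_sum (fun v _ => hP3 p.1 p.2 v)).trans ?_
    rw [Finset.sum_const, nsmul_eq_mul]
    have h6 : (S.card : ℝ) ≤ (d : ℝ) * d * (z : ℝ) ^ (τ + 1) := by exact_mod_cast hS
    have hpos : (0 : ℝ) < (z : ℝ) ^ (τ + 2) := pow_pos hzR _
    rw [mul_one_div, div_le_div_iff₀ hpos hzR]
    calc (S.card : ℝ) * z ≤ ((d : ℝ) * d * (z : ℝ) ^ (τ + 1)) * z :=
          mul_le_mul_of_nonneg_right h6 hzR.le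
      _ = (d : ℝ) ^ 2 * (z : ℝ) ^ (τ + 2) := by ring
  -- the pointwise bound
  have hpt : ∀ q : Fin (z ^ D) × (Fin d → Fin (z ^ D)),
      ind (q.1 ∈ TT) ≤ ind (B q) +
        ((∑ j : Fin d, ind (1 ≤ j.val ∧ q.1 ∈ TT ∧ e j (W q.1 (q.2 j) j) = e j q.1)) +
          ∑ p : J × Fin d, ind (q.1 ∈ TT ∧ g p.1 (W q.1 (q.2 p.2) p.2) ∈ S)) := by
    intro q
    have hn1 : 0 ≤ ∑ j : Fin d, ind (1 ≤ j.val ∧ q.1 ∈ TT ∧ e j (W q.1 (q.2 j) j) = e j q.1) :=
      Finset.sum_nonneg (fun _ _ => ind_nonneg _)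
    have hn2 : 0 ≤ ∑ p : J × Fin d, ind (q.1 ∈ TT ∧ g p.1 (W q.1 (q.2 p.2) p.2) ∈ S) :=
      Finset.sum_nonneg (fun _ _ => ind_nonneg _)
    by_cases hT : q.1 ∈ TT
    · by_cases hBq : B q
      · rw [ind_pos hBq]
        linarith [ind_le_one (q.1 ∈ TT)]
      · have h5 : ¬ ((∀ j : Fin d, 1 ≤ j.val → e j (W q.1 (q.2 j) j) ≠ e j q.1) ∧
            ∀ j l, g j (W q.1 (q.2 l) l) ∉ S) := fun h => hBq ((hB q).mpr ⟨hT, h⟩)
        rw [not_and_or] at h5
        rw [ind_pos hT, ind_neg hBq]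
        rcases h5 with h5 | h5
        · push Not at h5
          obtain ⟨j, hj, hj'⟩ := h5
          have h6 := Finset.single_le_sum
            (f := fun j : Fin d => ind (1 ≤ j.val ∧ q.1 ∈ TT ∧ e j (W q.1 (q.2 j) j) = e j q.1))
            (s := univ) (fun v _ => ind_nonneg _) (mem_univ j)
          simp only [ind_pos (show 1 ≤ j.val ∧ q.1 ∈ TT ∧ e j (W q.1 (q.2 j) j) = e j q.1 from
            ⟨hj, hT, hj'⟩)] at h6
          linarith
        · push Not at h5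
          obtain ⟨j, l, hj'⟩ := h5
          have h6 := Finset.single_le_sum
            (f := fun p : J × Fin d => ind (q.1 ∈ TT ∧ g p.1 (W q.1 (q.2 p.2) p.2) ∈ S))
            (s := univ) (fun v _ => ind_nonneg _) (mem_univ (j, l))
          simp only [ind_pos (show q.1 ∈ TT ∧ g j (W q.1 (q.2 l) l) ∈ S from ⟨hT, hj'⟩)] at h6
          linarith
    · rw [ind_neg hT]
      linarith [ind_nonneg (B q)]
  have hTT : av (fun q : Fin (z ^ D) × (Fin d → Fin (z ^ D)) => ind (q.1 ∈ TT)) =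
      (TT.card : ℝ) / (z : ℝ) ^ D := by
    rw [av_prod]
    have h5 : ∀ b : Fin (z ^ D), av (fun _ : Fin d → Fin (z ^ D) => ind (b ∈ TT)) =
        ind (b ∈ TT) := fun b => av_const _
    rw [av_congr h5]
    unfold av
    rw [Tuple_sum_ind univ (fun b : Fin (z ^ D) => b ∈ TT), Fintype.card_fin]
    push_cast
    congr 3
    ext x
    simp
  have hmain := av_mono hpt
  rw [hTT, av_add, av_add, av_sum, av_sum] at hmain
  have hs2 : ∑ j : Fin d, av (fun q : Fin (z ^ D) × (Fin d → Fin (z ^ D)) =>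
      ind (1 ≤ j.val ∧ q.1 ∈ TT ∧ e j (W q.1 (q.2 j) j) = e j q.1)) ≤ (d : ℝ) / z := by
    refine (Finset.sum_le_sum (fun j _ => hP2 j)).trans (le_of_eq ?_)
    rw [Finset.sum_const, Finset.card_univ, Fintype.card_fin, nsmul_eq_mul, mul_one_div]
  have hs3 : ∑ p : J × Fin d, av (fun q : Fin (z ^ D) × (Fin d → Fin (z ^ D)) =>
      ind (q.1 ∈ TT ∧ g p.1 (W q.1 (q.2 p.2) p.2) ∈ S)) ≤ (d : ℝ) ^ 4 / z := by
    refine (Finset.sum_le_sum (fun p _ => hP4 p)).trans ?_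
    rw [Finset.sum_const, Finset.card_univ, Fintype.card_prod, Fintype.card_fin, nsmul_eq_mul]
    have h5 : (Fintype.card J : ℝ) ≤ d := by exact_mod_cast hJ
    have hd0 : (0 : ℝ) ≤ d := Nat.cast_nonneg _
    push_cast
    calc (Fintype.card J : ℝ) * d * ((d : ℝ) ^ 2 / z) ≤ (d : ℝ) * d * ((d : ℝ) ^ 2 / z) := by
          apply mul_le_mul_of_nonneg_right _ (by positivity)
          exact mul_le_mul_of_nonneg_right h5 hd0
      _ = (d : ℝ) ^ 4 / z := by ring
  have hD1 : (1 : ℝ) ≤ ((D : ℝ) + 1) ^ d := by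
    apply one_le_pow₀
    have : (0 : ℝ) ≤ D := Nat.cast_nonneg _
    linarith
  have hc1 : 1 / ((D : ℝ) + 1) ^ d ≤ 1 := by
    rw [div_le_one (by linarith)]
    exact hD1
  have hc0 : 0 ≤ 1 / ((D : ℝ) + 1) ^ d := by positivity
  have herr : 0 ≤ ((d : ℝ) + (d : ℝ) ^ 4) / z := by positivity
  have hBlow : (TT.card : ℝ) / (z : ℝ) ^ D - ((d : ℝ) + (d : ℝ) ^ 4) / z ≤
      av (fun q : Fin (z ^ D) × (Fin d → Fin (z ^ D)) => ind (B q)) := by
    have : ((d : ℝ) + (d : ℝ) ^ 4) / z = (d : ℝ) / z + (d : ℝ) ^ 4 / z := by ring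
    rw [this]
    linarith
  calc 1 / ((D : ℝ) + 1) ^ d * ((TT.card : ℝ) / (z : ℝ) ^ D) - ((d : ℝ) + (d : ℝ) ^ 4) / z
      ≤ 1 / ((D : ℝ) + 1) ^ d * ((TT.card : ℝ) / (z : ℝ) ^ D) -
          1 / ((D : ℝ) + 1) ^ d * (((d : ℝ) + (d : ℝ) ^ 4) / z) := by
        have := mul_le_mul_of_nonneg_right hc1 herr
        linarith
    _ = 1 / ((D : ℝ) + 1) ^ d *
          ((TT.card : ℝ) / (z : ℝ) ^ D - ((d : ℝ) + (d : ℝ) ^ 4) / z) := by ring
    _ ≤ _ := mul_le_mul_of_nonneg_left hBlow hc0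

end Pool.Agent.H76.LY
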