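import Pool.Agent.H76.LY.Geo
import Pool.Agent.H76.LY.Tuple

/-! The tuple lemma for a profile. -/

namespace Pool.Agent.H76.LY

open Finset Pool.Agent.H46.SR Pool.Agent.H46.TS Pool.Agent.H76.LX

namespace Par

variable (P : Par)

theorem TupleP_k_le {ψ : Fin (P.z ^ P.D) → Fin P.N} {i : ℕ} (F : P.Prof ψ i) (m : ℕ) :
    ∀ l : ℕ, l + m < P.d → F.k l ≤ F.k (l + m) := by
  induction m with
  | zero => intro l _; exact le_rfl
  | succ m ih =>
    intro l hl
    have h1 := ih l (by omega)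
    have h2 := F.hks (l + m) (by omega)
    have h3 : l + m + 1 = l + (m + 1) := by omega
    rw [h3] at h2
    omega

theorem TupleP_div {x y a b : ℕ} (hab : a ≤ b) (h : x / P.U a = y / P.U a) :
    x / P.U b = y / P.U b := by
  obtain ⟨c, hc⟩ := P.U_dvd hab
  rw [hc, ← Nat.div_div_eq_div_mul, ← Nat.div_div_eq_div_mul, h]

theorem av_gd {ψ : Fin (P.z ^ P.D) → Fin P.N} {i : ℕ} (F : P.Prof ψ i) (β : ℕ)
    (S : Finset P.Co) (hS : S.card ≤ P.d * P.d * P.z ^ (P.τ + 1)) :
    P.cst ≤ av (fun r : P.Rr => ind (Gd F r ∧ Disjoint (Cf F β r) S)) := by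
  have hd := P.hd
  have hz0 : (0 : ℝ) < (P.z : ℝ) ^ P.D := by
    have : (0 : ℝ) < (P.z : ℝ) := by exact_mod_cast P.zpos
    positivity
  have hD0 : (0 : ℝ) < (P.D : ℝ) + 1 := by positivity
  have key := tuple (J := Fin (P.d - 1)) (V1 := ℕ) (V3 := P.Co) (z := P.z) (d := P.d) (D := P.D)
    (τ := P.τ) P.hz (by rw [Fintype.card_fin]; omega) (fun j => F.s j.val)
    (fun j => F.hs j.val j.2) F.TT (fun j b => (ψ b).val / P.U (F.k j.val))
    (fun j b => cf F β j b)
    (fun j hj b hb => F.hJ j.val hj j.2 b hb)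
    (by
      intro j l b hb b' hbb
      have e1 : (ψ b').val / P.U (F.k (P.d - 1) + 1) = (ψ b).val / P.U (F.k (P.d - 1) + 1) := by
        by_cases hl : 1 ≤ l.val
        · have e2 := F.hb l.val hl l.2 b hb b' hbb
          have e3 := TupleP_k_le P F (P.d - 1 - l.val) l.val (by have := l.2; omega)
          have e4 : l.val + (P.d - 1 - l.val) = P.d - 1 := by have := l.2; omega
          rw [e4] at e3
          exact TupleP_div P (by omega) e2
        · have e2 : l.val = 0 := by omega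
          have e3 : b' = b := by
            apply Fin.ext
            have e5 : b'.val / P.z ^ F.s l.val = b.val / P.z ^ F.s l.val := hbb
            rw [e2, F.hs0, pow_zero, Nat.div_one, Nat.div_one] at e5
            exact e5
          rw [e3]
      refine le_trans (Nat.mul_le_mul_right _ (Finset.card_le_card ?_)) (F.hJD b hb)
      intro b'' hb''
      rw [Finset.mem_filter] at hb'' ⊢
      refine ⟨Finset.mem_univ _, ?_⟩
      rw [← e1]
      have h5 := hb''.2
      have h6 : (ψ b'').val / P.U (F.ks j.val) = (ψ b').val / P.U (F.ks j.val) := by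
        have h7 := congrArg (fun c : P.Co => c.2.2.val) h5
        exact h7
      have h8 := F.hks j.val (by have := j.2; omega)
      have h9 := TupleP_k_le P F (P.d - 1 - (j.val + 1)) (j.val + 1) (by have := j.2; omega)
      have h10 : j.val + 1 + (P.d - 1 - (j.val + 1)) = P.d - 1 := by have := j.2; omega
      rw [h10] at h9
      exact TupleP_div P (by omega) h6) S hS
  have hcst : P.cst ≤ 1 / ((P.D : ℝ) + 1) ^ P.d * ((F.TT.card : ℝ) / (P.z : ℝ) ^ P.D) -
      ((P.d : ℝ) + (P.d : ℝ) ^ 4) / P.z := by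
    unfold cst
    have h1 : (P.z : ℝ) ^ P.D ≤ (F.TT.card : ℝ) * (2 * ((P.D : ℝ) + 1) ^ (P.La + 1)) := by
      exact_mod_cast F.hTT
    have h2 : 1 / (2 * ((P.D : ℝ) + 1) ^ (P.La + 1)) ≤ (F.TT.card : ℝ) / (P.z : ℝ) ^ P.D := by
      rw [div_le_div_iff₀ (by positivity) hz0]
      linarith
    have h3 : 1 / (((P.D : ℝ) + 1) ^ P.d * (2 * ((P.D : ℝ) + 1) ^ (P.La + 1))) =
        1 / ((P.D : ℝ) + 1) ^ P.d * (1 / (2 * ((P.D : ℝ) + 1) ^ (P.La + 1))) := by
      rw [one_div_mul_one_div]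
    rw [h3]
    have h4 : 0 ≤ 1 / ((P.D : ℝ) + 1) ^ P.d := by positivity
    have h5 := mul_le_mul_of_nonneg_left h2 h4
    linarith
  refine hcst.trans (key.trans ?_)
  apply av_mono
  intro r
  apply ind_mono
  rintro ⟨h1, h2, h3⟩
  have h4 := h3 (P.lf r) (fun l => rfl)
  refine ⟨⟨h1, h2, h4.1⟩, ?_⟩
  rw [Finset.disjoint_left]
  intro c hc hcS
  unfold Cf at hc
  rw [Finset.mem_image] at hc
  obtain ⟨p, _, rfl⟩ := hc
  exact h4.2 p.1 p.2 hcS

end Par

end Pool.Agent.H76.LY
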